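import Mathlib

namespace Pool.Agent.W2helper36.HT

/-- The linear form `a₁ u + a₂ w` at the integer vector `(u, w)`. -/
def L (a : ℤ × ℤ) (v : ℤ × ℤ) : ℤ := a.1 * v.1 + a.2 * v.2

def det (v w : ℤ × ℤ) : ℤ := v.1 * w.2 - v.2 * w.1

/-- The larger of the absolute values of the two coordinates. -/
def nrm (v : ℤ × ℤ) : ℕ := max v.1.natAbs v.2.natAbs

lemma fibre (v0 v1 v : ℤ × ℤ) (h0 : IsCoprime v0.1 v0.2) (hd : det v0 v = det v0 v1)
    (n0 : nrm v ≤ nrm v0) (n1 : nrm v1 ≤ nrm v0) :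
    ∃ t ∈ Finset.Icc (-2:ℤ) 2, v = (v1.1 + t * v0.1, v1.2 + t * v0.2) := by
  obtain ⟨x, y, hxy⟩ := h0
  have hpq : v0.1 * (v.2 - v1.2) = v0.2 * (v.1 - v1.1) := by
    simp only [det] at hd; linarith
  have e1 : (x * (v.1 - v1.1) + y * (v.2 - v1.2)) * v0.1 = v.1 - v1.1 := by
    calc (x * (v.1 - v1.1) + y * (v.2 - v1.2)) * v0.1
        = x * (v.1 - v1.1) * v0.1 + y * (v0.1 * (v.2 - v1.2)) := by ring
      _ = (v.1 - v1.1) * (x * v0.1 + y * v0.2) := by rw [hpq]; ring
      _ = _ := by rw [hxy]; ring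
  have e2 : (x * (v.1 - v1.1) + y * (v.2 - v1.2)) * v0.2 = v.2 - v1.2 := by
    calc (x * (v.1 - v1.1) + y * (v.2 - v1.2)) * v0.2
        = x * (v0.2 * (v.1 - v1.1)) + y * (v.2 - v1.2) * v0.2 := by ring
      _ = (v.2 - v1.2) * (x * v0.1 + y * v0.2) := by rw [← hpq]; ring
      _ = _ := by rw [hxy]; ring
  refine ⟨x * (v.1 - v1.1) + y * (v.2 - v1.2), ?_, ?_⟩
  · set t := x * (v.1 - v1.1) + y * (v.2 - v1.2) with ht
    have hpos : 0 < nrm v0 := by
      by_contra hc
      have h00 : nrm v0 = 0 := by omega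
      have a1 : v0.1 = 0 := by
        have : v0.1.natAbs ≤ nrm v0 := le_max_left _ _
        omega
      have a2 : v0.2 = 0 := by
        have : v0.2.natAbs ≤ nrm v0 := le_max_right _ _
        omega
      rw [a1, a2] at hxy; simp at hxy
    have b1 : v.1.natAbs ≤ nrm v0 := le_trans (le_max_left _ _) n0
    have b2 : v.2.natAbs ≤ nrm v0 := le_trans (le_max_right _ _) n0
    have b3 : v1.1.natAbs ≤ nrm v0 := le_trans (le_max_left _ _) n1
    have b4 : v1.2.natAbs ≤ nrm v0 := le_trans (le_max_right _ _) n1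
    have key : t.natAbs * nrm v0 ≤ 2 * nrm v0 := by
      rcases max_choice v0.1.natAbs v0.2.natAbs with h | h
      · have : t.natAbs * v0.1.natAbs = (v.1 - v1.1).natAbs := by
          rw [← Int.natAbs_mul, e1]
        have h' : nrm v0 = v0.1.natAbs := h
        rw [h'] at b1 b3 ⊢
        rw [this]; omega
      · have : t.natAbs * v0.2.natAbs = (v.2 - v1.2).natAbs := by
          rw [← Int.natAbs_mul, e2]
        have h' : nrm v0 = v0.2.natAbs := h
        rw [h'] at b2 b4 ⊢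
        rw [this]; omega
    have : t.natAbs ≤ 2 := Nat.le_of_mul_le_mul_right key hpos
    rw [Finset.mem_Icc]; omega
  · rw [e1, e2]; ext <;> simp

lemma count_det (s : Finset (ℤ × ℤ)) (hprim : ∀ v ∈ s, IsCoprime v.1 v.2) (M E T : ℕ)
    (hM : 0 < M) (hE : 0 < E) (hdet : ∀ v ∈ s, ∀ w ∈ s, (M:ℤ) ∣ E * det v w)
    (hT : ∀ v ∈ s, ∀ w ∈ s, |det v w| ≤ T) :
    s.card ≤ 5 * (2 * (E * T / M) + 1) := by
  rcases s.eq_empty_or_nonempty with rfl | hne
  · simp
  obtain ⟨v0, hv0, hmax⟩ := s.exists_max_image nrm hne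
  have hf : ∀ k ∈ s.image (fun v => (E:ℤ) * det v0 v / M),
      (s.filter (fun v => (E:ℤ) * det v0 v / M = k)).card ≤ 5 := by
    intro k hk
    rcases (s.filter (fun v => (E:ℤ) * det v0 v / M = k)).eq_empty_or_nonempty with h | ⟨v1, hv1⟩
    · rw [h]; simp
    · rw [Finset.mem_filter] at hv1
      calc (s.filter (fun v => (E:ℤ) * det v0 v / M = k)).card
          ≤ ((Finset.Icc (-2:ℤ) 2).image (fun t => (v1.1 + t * v0.1, v1.2 + t * v0.2))).card := by
            apply Finset.card_le_card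
            intro v hv
            rw [Finset.mem_filter] at hv
            have e : (E:ℤ) * det v0 v = E * det v0 v1 := by
              have d1 := Int.ediv_mul_cancel (hdet v0 hv0 v hv.1)
              have d2 := Int.ediv_mul_cancel (hdet v0 hv0 v1 hv1.1)
              rw [← d1, ← d2, hv.2, hv1.2]
            have e' : det v0 v = det v0 v1 := by
              have hE' : (E:ℤ) ≠ 0 := by exact_mod_cast hE.ne'
              exact mul_left_cancel₀ hE' e
            obtain ⟨t, ht, hvt⟩ := fibre v0 v1 v (hprim v0 hv0) e' (hmax v hv.1) (hmax v1 hv1.1)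
            rw [Finset.mem_image]
            exact ⟨t, ht, hvt.symm⟩
        _ ≤ (Finset.Icc (-2:ℤ) 2).card := Finset.card_image_le
        _ = 5 := by simp
  have h1 := Finset.card_le_mul_card_image s 5 hf
  refine h1.trans (Nat.mul_le_mul_left 5 ?_)
  have h2 : s.image (fun v => (E:ℤ) * det v0 v / M) ⊆
      Finset.Icc (-((E * T / M : ℕ) : ℤ)) ((E * T / M : ℕ) : ℤ) := by
    intro k hk
    rw [Finset.mem_image] at hk
    obtain ⟨v, hv, rfl⟩ := hk
    obtain ⟨c, hc⟩ := hdet v0 hv0 v hv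
    have hM' : (M:ℤ) ≠ 0 := by exact_mod_cast hM.ne'
    have hk : (E:ℤ) * det v0 v / M = c := by rw [hc]; exact Int.mul_ediv_cancel_left _ hM'
    rw [hk]
    have h3 : M * c.natAbs ≤ E * T := by
      have h4 : ((M * c.natAbs : ℕ) : ℤ) ≤ ((E * T : ℕ) : ℤ) := by
        push_cast
        have h5 : (M:ℤ) * |c| = E * |det v0 v| := by
          have h6 := congrArg abs hc
          rw [abs_mul, abs_mul, Nat.abs_cast, Nat.abs_cast] at h6
          exact h6.symm
        rw [h5]
        exact mul_le_mul_of_nonneg_left (hT v0 hv0 v hv) (by positivity)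
      exact_mod_cast h4
    have h7 : c.natAbs ≤ E * T / M := by
      rw [Nat.le_div_iff_mul_le hM]; linarith
    rw [Finset.mem_Icc]
    omega
  refine (Finset.card_le_card h2).trans ?_
  rw [Int.card_Icc]
  omega

lemma gcd_prod_dvd {ι : Type*} (s : Finset ι) (m : ℕ) (n : ι → ℕ) :
    Nat.gcd m (∏ i ∈ s, n i) ∣ ∏ i ∈ s, Nat.gcd m (n i) := by
  classical
  induction s using Finset.induction_on with
  | empty => simp
  | insert i s hi ih =>
    rw [Finset.prod_insert hi, Finset.prod_insert hi]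
    exact (Nat.gcd_mul_right_dvd_mul_gcd m (n i) (∏ j ∈ s, n j)).trans (Nat.mul_dvd_mul_left _ ih)

lemma prod_dvd {ι : Type*} (s : Finset ι) (n : ι → ℕ) (D δ : ℕ)
    (h1 : ∀ i ∈ s, n i ∣ δ) (h2 : ∀ i ∈ s, ∀ j ∈ s, i ≠ j → Nat.gcd (n i) (n j) ∣ D) :
    ∏ i ∈ s, n i ∣ D ^ (s.card * s.card) * δ := by
  classical
  induction s using Finset.induction_on with
  | empty => simp
  | insert i s hi ih =>
    rw [Finset.prod_insert hi, Finset.card_insert_of_notMem hi]
    have ih' := ih (fun j hj => h1 j (Finset.mem_insert_of_mem hj))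
      (fun j hj k hk hjk => h2 j (Finset.mem_insert_of_mem hj) k (Finset.mem_insert_of_mem hk) hjk)
    have hg : Nat.gcd (n i) (∏ j ∈ s, n j) ∣ D ^ s.card := by
      refine (gcd_prod_dvd s (n i) n).trans ?_
      rw [← Finset.prod_const]
      apply Finset.prod_dvd_prod_of_dvd
      intro j hj
      exact h2 i (Finset.mem_insert_self _ _) j (Finset.mem_insert_of_mem hj)
        (fun h => hi (h ▸ hj))
    have hl : Nat.lcm (n i) (∏ j ∈ s, n j) ∣ D ^ (s.card * s.card) * δ :=
      Nat.lcm_dvd ((h1 i (Finset.mem_insert_self _ _)).trans (Dvd.intro_left _ rfl)) ih'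
    calc n i * ∏ j ∈ s, n j = Nat.gcd (n i) (∏ j ∈ s, n j) * Nat.lcm (n i) (∏ j ∈ s, n j) :=
          (Nat.gcd_mul_lcm _ _).symm
      _ ∣ D ^ s.card * (D ^ (s.card * s.card) * δ) := Nat.mul_dvd_mul hg hl
      _ ∣ D ^ ((s.card + 1) * (s.card + 1)) * δ := by
          rw [← mul_assoc, ← pow_add]
          apply Nat.mul_dvd_mul_right
          apply pow_dvd_pow
          nlinarith

/-- greedy choice -/
lemma greedy {r : ℕ} (z : Fin r → ℕ) (hz : ∀ i, 1 ≤ z i) (W Y : ℝ) (hY : ∀ i, (z i : ℝ) ^ 2 ≤ Y)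
    (hY1 : 1 ≤ Y) (hW : W ≤ ((∏ i, z i : ℕ) : ℝ)) :
    ∃ z' : Fin r → ℕ, (∀ i, z' i ∣ z i) ∧ (∀ i, 1 ≤ z' i) ∧ W ≤ ((∏ i, z' i : ℕ) : ℝ) ∧
      (((∏ i, z' i : ℕ) : ℝ) ≤ Y ∨ ((∏ i, z' i : ℕ) : ℝ) ^ 2 ≤ W ^ 3) := by
  classical
  let F : Finset (Finset (Fin r)) := Finset.univ.filter (fun S => W ≤ ((∏ i ∈ S, z i : ℕ) : ℝ))
  have hF : F.Nonempty := ⟨Finset.univ, by simp only [F, Finset.mem_filter, Finset.mem_univ, true_and]; exact hW⟩
  obtain ⟨S, hS, hmin⟩ := F.exists_min_image Finset.card hF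
  have hS' : W ≤ ((∏ i ∈ S, z i : ℕ) : ℝ) := (Finset.mem_filter.mp hS).2
  have hzY : ∀ i, (z i : ℝ) ≤ Y := by
    intro i
    have h1 : (1:ℝ) ≤ z i := by exact_mod_cast hz i
    nlinarith [hY i]
  refine ⟨fun i => if i ∈ S then z i else 1, ?_, ?_, ?_, ?_⟩
  · intro i; by_cases h : i ∈ S <;> simp [h]
  · intro i; by_cases h : i ∈ S <;> simp [h, hz i]
  · have : ∏ i, (if i ∈ S then z i else 1) = ∏ i ∈ S, z i := by
      rw [Finset.prod_ite_mem, Finset.univ_inter]
    rw [this]; exact hS'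
  · have : ∏ i, (if i ∈ S then z i else 1) = ∏ i ∈ S, z i := by
      rw [Finset.prod_ite_mem, Finset.univ_inter]
    rw [this]
    rcases S.eq_empty_or_nonempty with h | hne
    · left; rw [h]; simpa using hY1
    · obtain ⟨i, hi, himin⟩ := S.exists_min_image z hne
      have h1 : ¬ (W ≤ ((∏ j ∈ S.erase i, z j : ℕ) : ℝ)) := by
        intro hc
        have h2 : S.erase i ∈ F := by
          simp only [F, Finset.mem_filter, Finset.mem_univ, true_and]; exact hc
        have h3 := hmin _ h2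
        have h4 := Finset.card_erase_lt_of_mem hi
        omega
      push Not at h1
      rw [← Finset.mul_prod_erase S z hi]
      rcases (S.erase i).eq_empty_or_nonempty with h | ⟨j, hj⟩
      · left
        rw [h]; simpa using hzY i
      · rw [← Finset.mul_prod_erase (S.erase i) z hj] at h1 ⊢
        have hij : z i ≤ z j := himin j (Finset.mem_of_mem_erase hj)
        have hijR : (z i : ℝ) ≤ z j := by exact_mod_cast hij
        rcases ((S.erase i).erase j).eq_empty_or_nonempty with h | ⟨k, hk⟩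
        · left
          rw [h]
          push_cast
          rw [Finset.prod_empty, mul_one]
          calc (z i : ℝ) * z j ≤ z j * z j := by gcongr
            _ = (z j : ℝ) ^ 2 := by ring
            _ ≤ Y := hY j
        · right
          have hik : z i ≤ ∏ l ∈ (S.erase i).erase j, z l := by
            have hk' : z i ≤ z k :=
              himin k (Finset.mem_of_mem_erase (Finset.mem_of_mem_erase hk))
            refine hk'.trans (Nat.le_of_dvd (Finset.prod_pos (fun l _ => hz l)) ?_)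
            exact Finset.dvd_prod_of_mem z hk
          set q := ∏ l ∈ (S.erase i).erase j, z l with hq
          have hikR : (z i : ℝ) ≤ q := by exact_mod_cast hik
          push_cast at h1 ⊢
          have hz0 : (0:ℝ) ≤ z i := by positivity
          have hA : (z i : ℝ) ^ 2 ≤ (z j : ℝ) * (q : ℝ) := by
            rw [sq]; exact mul_le_mul hijR hikR hz0 (hz0.trans hijR)
          have hA0 : (0:ℝ) ≤ (z j : ℝ) * (q : ℝ) := by positivity
          calc ((z i : ℝ) * ((z j : ℝ) * (q : ℝ))) ^ 2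
              = (z i : ℝ) ^ 2 * ((z j : ℝ) * (q : ℝ)) ^ 2 := by ring
            _ ≤ ((z j : ℝ) * (q : ℝ)) * ((z j : ℝ) * (q : ℝ)) ^ 2 := by gcongr
            _ = ((z j : ℝ) * (q : ℝ)) ^ 3 := by ring
            _ ≤ W ^ 3 := by gcongr

end Pool.Agent.W2helper36.HT
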