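import Pool.Agent.W2helper36.HT.A

namespace Pool.Agent.W2helper36.HT

/-- product of the absolute values of all determinants -/
def Dd {r : ℕ} (a : Fin r → ℤ × ℤ) : ℕ :=
  ∏ p ∈ (Finset.univ : Finset (Fin r)).offDiag, (det (a p.1) (a p.2)).natAbs

lemma Dd_pos {r : ℕ} (a : Fin r → ℤ × ℤ) (ha : ∀ i j, i ≠ j → det (a i) (a j) ≠ 0) : 0 < Dd a := by
  apply Finset.prod_pos
  intro p hp
  rw [Finset.mem_offDiag] at hp
  exact Int.natAbs_pos.mpr (ha _ _ hp.2.2)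

lemma dvd_Dd {r : ℕ} (a : Fin r → ℤ × ℤ) {i j : Fin r} (hij : i ≠ j) :
    (det (a i) (a j)).natAbs ∣ Dd a := by
  have : (i, j) ∈ (Finset.univ : Finset (Fin r)).offDiag := by
    rw [Finset.mem_offDiag]; exact ⟨Finset.mem_univ _, Finset.mem_univ _, hij⟩
  exact Finset.dvd_prod_of_mem (fun p : Fin r × Fin r => (det (a p.1) (a p.2)).natAbs) this

lemma common_dvd (a b : ℤ × ℤ) (v : ℤ × ℤ) (h : IsCoprime v.1 v.2) (g : ℤ)
    (h1 : g ∣ L a v) (h2 : g ∣ L b v) : g ∣ det a b := by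
  obtain ⟨x, y, hxy⟩ := h
  have e1 : g ∣ det a b * v.2 := by
    have := dvd_sub (Dvd.dvd.mul_left h2 a.1) (Dvd.dvd.mul_left h1 b.1)
    have e : a.1 * L b v - b.1 * L a v = det a b * v.2 := by simp only [L, det]; ring
    rwa [e] at this
  have e2 : g ∣ det a b * v.1 := by
    have := dvd_sub (Dvd.dvd.mul_left h1 b.2) (Dvd.dvd.mul_left h2 a.2)
    have e : b.2 * L a v - a.2 * L b v = det a b * v.1 := by simp only [L, det]; ring
    rwa [e] at this
  have e3 : g ∣ x * (det a b * v.1) + y * (det a b * v.2) :=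
    dvd_add (Dvd.dvd.mul_left e2 _) (Dvd.dvd.mul_left e1 _)
  have e4 : x * (det a b * v.1) + y * (det a b * v.2) = det a b := by
    calc _ = det a b * (x * v.1 + y * v.2) := by ring
      _ = _ := by rw [hxy]; ring
  rwa [e4] at e3

lemma det_L1 (a : ℤ × ℤ) (v w : ℤ × ℤ) : a.1 * det v w = L a v * w.2 - v.2 * L a w := by
  simp only [det, L]; ring

lemma det_L2 (a : ℤ × ℤ) (v w : ℤ × ℤ) : a.2 * det v w = v.1 * L a w - L a v * w.1 := by
  simp only [det, L]; ring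

lemma dvd_det (a : ℤ × ℤ) (h : IsCoprime a.1 a.2) (v w : ℤ × ℤ) (n : ℤ) (h1 : n ∣ L a v)
    (h2 : n ∣ L a w) : n ∣ det v w := by
  obtain ⟨x, y, hxy⟩ := h
  have e : det v w = x * (L a v * w.2 - v.2 * L a w) + y * (v.1 * L a w - L a v * w.1) := by
    rw [← det_L1, ← det_L2]
    calc det v w = (x * a.1 + y * a.2) * det v w := by rw [hxy]; ring
      _ = _ := by ring
  rw [e]
  exact dvd_add (Dvd.dvd.mul_left (dvd_sub (Dvd.dvd.mul_right h1 _) (Dvd.dvd.mul_left h2 _)) _)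
    (Dvd.dvd.mul_left (dvd_sub (Dvd.dvd.mul_left h2 _) (Dvd.dvd.mul_right h1 _)) _)

lemma det_le (a : ℤ × ℤ) (h : IsCoprime a.1 a.2) (v w : ℤ × ℤ) (U V : ℕ) (n1 : nrm v ≤ 2 * U)
    (n2 : nrm w ≤ 2 * U) (l1 : (L a v).natAbs ≤ 2 * V) (l2 : (L a w).natAbs ≤ 2 * V) :
    (det v w).natAbs ≤ 8 * U * V := by
  have b1 : v.2.natAbs ≤ 2 * U := le_trans (le_max_right _ _) n1
  have b2 : w.2.natAbs ≤ 2 * U := le_trans (le_max_right _ _) n2
  have b3 : v.1.natAbs ≤ 2 * U := le_trans (le_max_left _ _) n1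
  have b4 : w.1.natAbs ≤ 2 * U := le_trans (le_max_left _ _) n2
  by_cases ha : a.1 = 0
  · have ha2 : a.2 ≠ 0 := by
      intro h2
      rw [ha, h2] at h
      exact not_isCoprime_zero_zero h
    calc (det v w).natAbs = 1 * (det v w).natAbs := (one_mul _).symm
      _ ≤ a.2.natAbs * (det v w).natAbs := Nat.mul_le_mul_right _ (Int.natAbs_pos.mpr ha2)
      _ = (v.1 * L a w - L a v * w.1).natAbs := by rw [← Int.natAbs_mul, det_L2]
      _ ≤ (v.1 * L a w).natAbs + (L a v * w.1).natAbs := Int.natAbs_sub_le _ _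
      _ = v.1.natAbs * (L a w).natAbs + (L a v).natAbs * w.1.natAbs := by
          rw [Int.natAbs_mul, Int.natAbs_mul]
      _ ≤ (2 * U) * (2 * V) + (2 * V) * (2 * U) :=
          Nat.add_le_add (Nat.mul_le_mul b3 l2) (Nat.mul_le_mul l1 b4)
      _ = 8 * U * V := by ring
  · calc (det v w).natAbs = 1 * (det v w).natAbs := (one_mul _).symm
      _ ≤ a.1.natAbs * (det v w).natAbs := Nat.mul_le_mul_right _ (Int.natAbs_pos.mpr ha)
      _ = (L a v * w.2 - v.2 * L a w).natAbs := by rw [← Int.natAbs_mul, det_L1]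
      _ ≤ (L a v * w.2).natAbs + (v.2 * L a w).natAbs := Int.natAbs_sub_le _ _
      _ = (L a v).natAbs * w.2.natAbs + v.2.natAbs * (L a w).natAbs := by
          rw [Int.natAbs_mul, Int.natAbs_mul]
      _ ≤ (2 * V) * (2 * U) + (2 * U) * (2 * V) :=
          Nat.add_le_add (Nat.mul_le_mul l1 b2) (Nat.mul_le_mul b1 l2)
      _ = 8 * U * V := by ring

/-- The number of points of one class. -/
lemma class_count {r : ℕ} (a : Fin r → ℤ × ℤ) (ha : ∀ i j, i ≠ j → det (a i) (a j) ≠ 0)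
    (hac : ∀ i, IsCoprime (a i).1 (a i).2) (i0 : Fin r) (U V : ℕ)
    (z : Fin r → ℕ) (hz : ∀ i, 1 ≤ z i) (s : Finset (ℤ × ℤ))
    (hs : ∀ v ∈ s, IsCoprime v.1 v.2 ∧ nrm v ≤ 2 * U ∧ (L (a i0) v).natAbs ≤ 2 * V ∧
      ∀ i, (z i ^ 2 : ℕ) ∣ (L (a i) v).natAbs) :
    (s.card : ℝ) ≤ 5 + 80 * (Dd a : ℝ) ^ (r * r) * U * V / ((∏ i, z i : ℕ) : ℝ) ^ 2 := by
  classical
  rcases s.eq_empty_or_nonempty with rfl | ⟨v0, hv0⟩
  · simp; positivity
  set M := ∏ i, z i ^ 2 with hMdef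
  have hM : 0 < M := Finset.prod_pos (fun i _ => by have := hz i; positivity)
  have hdvd : ∀ v ∈ s, ∀ w ∈ s, (M:ℤ) ∣ ((Dd a ^ (r * r) : ℕ) : ℤ) * det v w := by
    intro v hv w hw
    have h1 := prod_dvd (Finset.univ : Finset (Fin r)) (fun i => z i ^ 2) (Dd a) (det v w).natAbs
      (by
        intro i _
        have d1 := (hs v hv).2.2.2 i
        have d2 := (hs w hw).2.2.2 i
        rw [← Int.natCast_dvd] at d1 d2 ⊢
        exact dvd_det (a i) (hac i) v w _ d1 d2)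
      (by
        intro i _ j _ hij
        refine dvd_trans ?_ (dvd_Dd a hij)
        rw [← Int.natCast_dvd]
        apply common_dvd _ _ v0 (hs v0 hv0).1
        · have := (hs v0 hv0).2.2.2 i
          rw [← Int.natCast_dvd] at this
          exact dvd_trans (by exact_mod_cast Nat.gcd_dvd_left _ _) this
        · have := (hs v0 hv0).2.2.2 j
          rw [← Int.natCast_dvd] at this
          exact dvd_trans (by exact_mod_cast Nat.gcd_dvd_right _ _) this)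
    rw [Finset.card_univ, Fintype.card_fin] at h1
    have h2 : ((M:ℕ):ℤ) ∣ ((Dd a ^ (r * r) * (det v w).natAbs : ℕ) : ℤ) := by exact_mod_cast h1
    have h3 : ((Dd a ^ (r * r) * (det v w).natAbs : ℕ) : ℤ) ∣ ((Dd a ^ (r * r) : ℕ) : ℤ) * det v w := by
      rw [Nat.cast_mul]
      apply mul_dvd_mul_left
      exact Int.natAbs_dvd.mpr dvd_rfl
    exact h2.trans h3
  have hT : ∀ v ∈ s, ∀ w ∈ s, |det v w| ≤ ((8 * U * V : ℕ) : ℤ) := by
    intro v hv w hw
    obtain ⟨-, n1, l1, -⟩ := hs v hv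
    obtain ⟨-, n2, l2, -⟩ := hs w hw
    have c1 := det_le (a i0) (hac i0) v w U V n1 n2 l1 l2
    rw [← Int.natCast_natAbs]
    exact_mod_cast c1
  have h1 := count_det s (fun v hv => (hs v hv).1) M (Dd a ^ (r * r)) (8 * U * V) hM
    (pow_pos (Dd_pos a ha) _) hdvd hT
  have hMR : ((M:ℕ):ℝ) = ((∏ i, z i : ℕ) : ℝ) ^ 2 := by
    rw [hMdef, Finset.prod_pow]; push_cast; ring
  have hMR0 : (0:ℝ) < (M:ℝ) := by exact_mod_cast hM
  calc (s.card : ℝ) ≤ ((5 * (2 * (Dd a ^ (r * r) * (8 * U * V) / M) + 1) : ℕ) : ℝ) := by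
        exact_mod_cast h1
    _ = 5 + 10 * ((Dd a ^ (r * r) * (8 * U * V) / M : ℕ) : ℝ) := by push_cast; ring
    _ ≤ 5 + 10 * (((Dd a ^ (r * r) * (8 * U * V) : ℕ) : ℝ) / M) := by
        gcongr; exact Nat.cast_div_le
    _ = _ := by rw [← hMR]; push_cast; ring

/-- Rankin sum. -/
lemma rankin (r X : ℕ) (ε : ℝ) (hε : 0 < ε) :
    ∑ z ∈ Fintype.piFinset (fun _ : Fin r => Finset.Icc 1 X), ∏ i, ((z i : ℝ)) ^ (-(1 + ε)) ≤
      (∑' n : ℕ, ((n:ℝ)) ^ (-(1 + ε))) ^ r := by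
  rw [Finset.sum_prod_piFinset (Finset.Icc 1 X) (fun (_ : Fin r) n => ((n:ℝ)) ^ (-(1 + ε)))]
  rw [Finset.prod_const, Finset.card_univ, Fintype.card_fin]
  apply pow_le_pow_left₀
  · exact Finset.sum_nonneg (fun n _ => by positivity)
  · apply Summable.sum_le_tsum
    · intro n _; positivity
    · exact Real.summable_nat_rpow.mpr (by linarith)

end Pool.Agent.W2helper36.HT
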