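import Pool.Agent.W2helper36.HT.B

namespace Pool.Agent.W2helper36.HT

lemma not_dvd_of_quot {e D p : ℕ} (he : Squarefree e) (hp : p.Prime)
    (h : p ∣ e / Nat.gcd e D) : ¬ p ∣ D := by
  intro hD
  have h1 : Nat.gcd e D * (e / Nat.gcd e D) = e := Nat.mul_div_cancel' (Nat.gcd_dvd_left _ _)
  have h2 : p ∣ e := h.trans ⟨Nat.gcd e D, by rw [mul_comm]; exact h1.symm⟩
  have h3 : p ∣ Nat.gcd e D := Nat.dvd_gcd h2 hD
  have h4 : p * p ∣ e := by rw [← h1]; exact Nat.mul_dvd_mul h3 h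
  have := he p h4
  exact hp.one_lt.ne' (Nat.isUnit_iff.mp this)

lemma prime_dvd_d {p : ℕ} (hp : p.Prime) (m l d : ℤ) (e z : ℕ) (hm : ¬ (p:ℤ) ∣ m)
    (hl : l.natAbs = z ^ 2 * e) (hl0 : l ≠ 0) (he : Squarefree e) (hpe : p ∣ e) (q : ℚ)
    (hq : (m:ℚ) * l = d * q ^ 2) : (p:ℤ) ∣ d := by
  by_contra hd
  haveI : Fact p.Prime := ⟨hp⟩
  have hm0 : m ≠ 0 := fun h => hm (by rw [h]; exact dvd_zero _)
  have hd0 : d ≠ 0 := fun h => hd (by rw [h]; exact dvd_zero _)
  have hq0 : q ≠ 0 := by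
    rintro rfl
    have : (m:ℚ) * l = 0 := by rw [hq]; ring
    rcases mul_eq_zero.mp this with h | h
    · exact hm0 (by exact_mod_cast h)
    · exact hl0 (by exact_mod_cast h)
  have hmQ : (m:ℚ) ≠ 0 := by exact_mod_cast hm0
  have hlQ : (l:ℚ) ≠ 0 := by exact_mod_cast hl0
  have hdQ : (d:ℚ) ≠ 0 := by exact_mod_cast hd0
  have h1 := congrArg (padicValRat p) hq
  rw [sq q, padicValRat.mul hmQ hlQ, padicValRat.mul hdQ (mul_ne_zero hq0 hq0),
    padicValRat.mul hq0 hq0, padicValRat.of_int, padicValRat.of_int, padicValRat.of_int,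
    padicValInt.eq_zero_of_not_dvd hm, padicValInt.eq_zero_of_not_dvd hd] at h1
  have he0 : e ≠ 0 := he.ne_zero
  have hz0 : z ≠ 0 := by
    rintro rfl
    apply hl0
    rw [← Int.natAbs_eq_zero, hl]; simp
  have h2 : padicValInt p l = 2 * padicValNat p z + 1 := by
    unfold padicValInt
    rw [hl, sq, padicValNat.mul (mul_ne_zero hz0 hz0) he0, padicValNat.mul hz0 hz0, two_mul]
    congr 1
    obtain ⟨k, rfl⟩ := hpe
    have hk0 : k ≠ 0 := by rintro rfl; simp at he0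
    have hk : ¬ p ∣ k := by
      intro hk
      have := he p (Nat.mul_dvd_mul_left p hk)
      exact hp.one_lt.ne' (Nat.isUnit_iff.mp this)
    rw [padicValNat.mul hp.ne_zero hk0, padicValNat_self, padicValNat.eq_zero_of_not_dvd hk]
  rw [h2] at h1
  push_cast at h1
  omega

lemma prod_e_le {r : ℕ} (a : Fin r → ℤ × ℤ) (ha : ∀ i j, i ≠ j → det (a i) (a j) ≠ 0) (c : ℤ) (hc : c ≠ 0)
    (v : ℤ × ℤ) (hv : IsCoprime v.1 v.2) (e z : Fin r → ℕ)
    (h : ∀ i, (L (a i) v).natAbs = z i ^ 2 * e i) (hsq : ∀ i, Squarefree (e i))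
    (hne : ∀ i, L (a i) v ≠ 0) (d : ℤ) (hd : d ≠ 0) (q : ℚ)
    (hq : (c:ℚ) * ∏ i, (L (a i) v : ℚ) = d * q ^ 2) :
    ∏ i, e i ≤ d.natAbs * (c.natAbs * Dd a) ^ r := by
  classical
  set D := c.natAbs * Dd a with hD
  have hD0 : 0 < D := Nat.mul_pos (Int.natAbs_pos.mpr hc) (Dd_pos a ha)
  set e' : Fin r → ℕ := fun i => e i / Nat.gcd (e i) D with he'
  have hfac : ∀ i, Nat.gcd (e i) D * e' i = e i := fun i =>
    Nat.mul_div_cancel' (Nat.gcd_dvd_left _ _)
  have he'e : ∀ i, e' i ∣ e i := fun i => ⟨Nat.gcd (e i) D, by rw [mul_comm]; exact (hfac i).symm⟩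
  have heL : ∀ i, (e i : ℤ) ∣ L (a i) v := fun i => by
    rw [Int.natCast_dvd, h i]; exact Nat.dvd_mul_left _ _
  have hpd : ∀ i, ∀ p : ℕ, p.Prime → p ∣ e' i → (p:ℤ) ∣ d := by
    intro i p hp hpi
    have hpD := not_dvd_of_quot (hsq i) hp hpi
    have hpc : ¬ (p:ℤ) ∣ c := by
      intro hh
      exact hpD ((Int.natCast_dvd.mp hh).trans (Nat.dvd_mul_right _ _))
    have hpe : p ∣ e i := hpi.trans (he'e i)
    have hpm : ¬ (p:ℤ) ∣ c * ∏ j ∈ Finset.univ.erase i, L (a j) v := by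
      intro hh
      rcases (Nat.prime_iff_prime_int.mp hp).dvd_or_dvd hh with h1 | h1
      · exact hpc h1
      · rw [Prime.dvd_finset_prod_iff (Nat.prime_iff_prime_int.mp hp)] at h1
        obtain ⟨j, hj, hpj⟩ := h1
        have hij : i ≠ j := fun h' => (Finset.ne_of_mem_erase hj) h'.symm
        have h2 : (p:ℤ) ∣ det (a i) (a j) :=
          common_dvd _ _ v hv _ (dvd_trans (by exact_mod_cast hpe) (heL i)) hpj
        exact hpD ((Int.natCast_dvd.mp h2).trans ((dvd_Dd a hij).trans (Nat.dvd_mul_left _ _)))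
    refine prime_dvd_d hp _ (L (a i) v) d (e i) (z i) hpm (h i) (hne i) (hsq i) hpe q ?_
    rw [← hq, ← Finset.prod_erase_mul _ _ (Finset.mem_univ i)]
    push_cast; ring
  have hdvd : ∀ i, e' i ∣ d.natAbs := by
    intro i
    have hsqi : Squarefree (e' i) := (hsq i).squarefree_of_dvd (he'e i)
    rw [← Nat.prod_primeFactors_of_squarefree hsqi]
    apply Finset.prod_primes_dvd
    · intro p hp; exact (Nat.prime_of_mem_primeFactors hp).prime
    · intro p hp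
      rw [← Int.natCast_dvd]
      exact hpd i p (Nat.prime_of_mem_primeFactors hp) (Nat.dvd_of_mem_primeFactors hp)
  have hcop : ∀ i j, i ≠ j → Nat.Coprime (e' i) (e' j) := by
    intro i j hij
    rw [Nat.coprime_iff_gcd_eq_one]
    by_contra hg
    obtain ⟨p, hp, hpg⟩ := Nat.exists_prime_and_dvd hg
    have h1 := hpg.trans (Nat.gcd_dvd_left _ _)
    have h2 := hpg.trans (Nat.gcd_dvd_right _ _)
    have hpD := not_dvd_of_quot (hsq i) hp h1
    have h3 : (p:ℤ) ∣ det (a i) (a j) :=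
      common_dvd _ _ v hv _ (dvd_trans (by exact_mod_cast h1.trans (he'e i)) (heL i))
        (dvd_trans (by exact_mod_cast h2.trans (he'e j)) (heL j))
    exact hpD ((Int.natCast_dvd.mp h3).trans ((dvd_Dd a hij).trans (Nat.dvd_mul_left _ _)))
  have hprod : ∏ i, e' i ∣ d.natAbs := by
    apply Finset.prod_dvd_of_isRelPrime
    · intro i _ j _ hij
      exact Nat.coprime_iff_isRelPrime.mp (hcop i j hij)
    · intro i _; exact hdvd i
  have hle : ∏ i, e' i ≤ d.natAbs := Nat.le_of_dvd (Int.natAbs_pos.mpr hd) hprod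
  calc ∏ i, e i = (∏ i, Nat.gcd (e i) D) * ∏ i, e' i := by
        rw [← Finset.prod_mul_distrib]; exact Finset.prod_congr rfl (fun i _ => (hfac i).symm)
    _ ≤ D ^ r * d.natAbs := by
        apply Nat.mul_le_mul _ hle
        calc ∏ i, Nat.gcd (e i) D ≤ ∏ _i : Fin r, D :=
              Finset.prod_le_prod' (fun i _ => Nat.gcd_le_right _ hD0)
          _ = D ^ r := by simp
    _ = _ := mul_comm _ _

lemma eq_of_sq_ratio (d d' : ℤ) (hd : Squarefree d) (hd' : Squarefree d') (q q' : ℚ)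
    (hq : q ≠ 0) (h : (d:ℚ) * q ^ 2 = d' * q' ^ 2) : d = d' := by
  have h1 : (d:ℚ) = d' * (q' / q) ^ 2 := by field_simp; linarith
  set t := q' / q with ht
  have h2 : (d:ℚ) * (t.den:ℚ) ^ 2 = d' * (t.num:ℚ) ^ 2 := by
    have ht' : t * t.den = t.num := Rat.mul_den_eq_num t
    rw [h1, ← ht']; ring
  have h3 : d * (t.den:ℤ) ^ 2 = d' * t.num ^ 2 := by exact_mod_cast h2
  have hcop : IsCoprime (t.num) (t.den:ℤ) := by
    rw [Int.isCoprime_iff_nat_coprime]; simpa using t.reduced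
  have hcop2 : IsCoprime (t.num ^ 2) ((t.den:ℤ) ^ 2) := hcop.pow
  have h4 : (t.den:ℤ) ^ 2 ∣ d' := by
    apply hcop2.symm.dvd_of_dvd_mul_right
    exact ⟨d, by rw [← h3]; ring⟩
  have h5 : t.num ^ 2 ∣ d := by
    apply hcop2.dvd_of_dvd_mul_right
    exact ⟨d', by rw [h3]; ring⟩
  have u1 : IsUnit (t.den:ℤ) := hd' _ (by rw [← sq]; exact h4)
  have u2 : IsUnit t.num := hd _ (by rw [← sq]; exact h5)
  have s1 : (t.den:ℤ) ^ 2 = 1 := Int.isUnit_sq u1
  have s2 : t.num ^ 2 = 1 := Int.isUnit_sq u2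
  rw [s1, s2] at h3
  linarith

end Pool.Agent.W2helper36.HT
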