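import Pool.Agent.W2helper36.HT.C

namespace Pool.Agent.W2helper36.HT

def K1 {r : ℕ} (a : Fin r → ℤ × ℤ) : ℕ := 2 + 2 * ∑ i, ((a i).1.natAbs + (a i).2.natAbs)

lemma le_K1 {r : ℕ} (a : Fin r → ℤ × ℤ) (i : Fin r) :
    2 + 2 * ((a i).1.natAbs + (a i).2.natAbs) ≤ K1 a := by
  unfold K1
  have := Finset.single_le_sum (f := fun i => (a i).1.natAbs + (a i).2.natAbs)
    (fun _ _ => Nat.zero_le _) (Finset.mem_univ i)
  omega

lemma L_le {r : ℕ} (a : Fin r → ℤ × ℤ) (i : Fin r) (v : ℤ × ℤ) :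
    (L (a i) v).natAbs ≤ K1 a * nrm v := by
  have h1 : v.1.natAbs ≤ nrm v := le_max_left _ _
  have h2 : v.2.natAbs ≤ nrm v := le_max_right _ _
  calc (L (a i) v).natAbs ≤ ((a i).1 * v.1).natAbs + ((a i).2 * v.2).natAbs := Int.natAbs_add_le _ _
    _ = (a i).1.natAbs * v.1.natAbs + (a i).2.natAbs * v.2.natAbs := by
        rw [Int.natAbs_mul, Int.natAbs_mul]
    _ ≤ (a i).1.natAbs * nrm v + (a i).2.natAbs * nrm v :=
        Nat.add_le_add (Nat.mul_le_mul_left _ h1) (Nat.mul_le_mul_left _ h2)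
    _ = ((a i).1.natAbs + (a i).2.natAbs) * nrm v := by ring
    _ ≤ K1 a * nrm v := by
        apply Nat.mul_le_mul_right
        have := le_K1 a i; omega

lemma nrm_le {r : ℕ} (a : Fin r → ℤ × ℤ) (ha : ∀ i j, i ≠ j → det (a i) (a j) ≠ 0)
    (i0 i : Fin r) (hi : i ≠ i0)
    (v : ℤ × ℤ) (hmin : (L (a i0) v).natAbs ≤ (L (a i) v).natAbs) :
    nrm v ≤ K1 a * (L (a i) v).natAbs := by
  have hd : 1 ≤ (det (a i) (a i0)).natAbs := Int.natAbs_pos.mpr (ha i i0 hi)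
  have h5 := le_K1 a i
  have h6 := le_K1 a i0
  unfold nrm
  apply max_le
  · calc v.1.natAbs = 1 * v.1.natAbs := (one_mul _).symm
      _ ≤ (det (a i) (a i0)).natAbs * v.1.natAbs := Nat.mul_le_mul_right _ hd
      _ = ((a i0).2 * L (a i) v - (a i).2 * L (a i0) v).natAbs := by
          rw [← Int.natAbs_mul]; congr 1; simp only [L, det]; ring
      _ ≤ ((a i0).2 * L (a i) v).natAbs + ((a i).2 * L (a i0) v).natAbs := Int.natAbs_sub_le _ _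
      _ = (a i0).2.natAbs * (L (a i) v).natAbs + (a i).2.natAbs * (L (a i0) v).natAbs := by
          rw [Int.natAbs_mul, Int.natAbs_mul]
      _ ≤ (a i0).2.natAbs * (L (a i) v).natAbs + (a i).2.natAbs * (L (a i) v).natAbs :=
          Nat.add_le_add_left (Nat.mul_le_mul_left _ hmin) _
      _ = ((a i0).2.natAbs + (a i).2.natAbs) * (L (a i) v).natAbs := by ring
      _ ≤ K1 a * (L (a i) v).natAbs := Nat.mul_le_mul_right _ (by omega)
  · calc v.2.natAbs = 1 * v.2.natAbs := (one_mul _).symm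
      _ ≤ (det (a i) (a i0)).natAbs * v.2.natAbs := Nat.mul_le_mul_right _ hd
      _ = ((a i).1 * L (a i0) v - (a i0).1 * L (a i) v).natAbs := by
          rw [← Int.natAbs_mul]; congr 1; simp only [L, det]; ring
      _ ≤ ((a i).1 * L (a i0) v).natAbs + ((a i0).1 * L (a i) v).natAbs := Int.natAbs_sub_le _ _
      _ = (a i).1.natAbs * (L (a i0) v).natAbs + (a i0).1.natAbs * (L (a i) v).natAbs := by
          rw [Int.natAbs_mul, Int.natAbs_mul]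
      _ ≤ (a i).1.natAbs * (L (a i) v).natAbs + (a i0).1.natAbs * (L (a i) v).natAbs :=
          Nat.add_le_add_right (Nat.mul_le_mul_left _ hmin) _
      _ = ((a i).1.natAbs + (a i0).1.natAbs) * (L (a i) v).natAbs := by ring
      _ ≤ K1 a * (L (a i) v).natAbs := Nat.mul_le_mul_right _ (by omega)

/-- the data of one class -/
def InClass {r : ℕ} (a : Fin r → ℤ × ℤ) (i0 : Fin r) (U V : ℕ) (Q : ℝ) (v : ℤ × ℤ) : Prop :=
  IsCoprime v.1 v.2 ∧ U ≤ nrm v ∧ nrm v ≤ 2 * U ∧ V ≤ (L (a i0) v).natAbs ∧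
    (L (a i0) v).natAbs ≤ 2 * V ∧ (∀ i, (L (a i0) v).natAbs ≤ (L (a i) v).natAbs) ∧
    ∃ e z : Fin r → ℕ, (∀ i, (L (a i) v).natAbs = z i ^ 2 * e i) ∧ ((∏ i, e i : ℕ) : ℝ) ≤ Q

lemma alg1 (α δ D b U V : ℝ) (m : ℕ) (hδ : δ * D = 1) (hb : b ≠ 0) :
    ((α * δ) ^ (m + 1 + 1) * U * V / b ^ 2) ^ 2 * (b ^ (2 * (m + 1) + 2) * D ^ (2 * (m + 1) + 2)) =
      α ^ (2 * m + 4) * (U ^ 2 * V * V * b ^ (2 * m)) := by
  have h1 : δ ^ (2 * m + 4) * D ^ (2 * m + 4) = 1 := by rw [← mul_pow, hδ, one_pow]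
  have h2 : b ^ 4 / (b ^ 2) ^ 2 = 1 := by
    have : b ^ 4 ≠ 0 := pow_ne_zero 4 hb
    rw [← pow_mul]; exact div_self this
  calc _ = α ^ (2 * m + 4) * (δ ^ (2 * m + 4) * D ^ (2 * m + 4)) * (U ^ 2 * V * V) *
        (b ^ (2 * m) * (b ^ 4 / (b ^ 2) ^ 2)) := by rw [div_pow]; ring
    _ = _ := by rw [h1, h2]; ring

lemma alg2 (K κ U V : ℝ) (m : ℕ) (h : K * κ = 1) :
    (κ / 2) ^ (2 * m + 4) * (U ^ 2 * V * (2 * K * U) * (2 * U) ^ (2 * m)) =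
      V * (U * κ) ^ (2 * (m + 1) + 1) * (1 / 8) := by
  have h1 : ((1:ℝ) / 2) ^ (2 * m) * 2 ^ (2 * m) = 1 := by rw [← mul_pow]; norm_num
  calc _ = κ ^ (2 * m + 3) * (K * κ) * (((1:ℝ) / 2) ^ (2 * m) * 2 ^ (2 * m)) * U ^ (2 * m + 3) * V *
        (1 / 8) := by ring
    _ = _ := by rw [h, h1]; ring

lemma W_le {g : ℕ} (hg : 1 ≤ g) (a : Fin (2 * g + 2) → ℤ × ℤ)
    (ha : ∀ i j, i ≠ j → det (a i) (a j) ≠ 0)
    (D : ℕ) (hD : 1 ≤ D) (b : ℝ) (hb : 1 ≤ b) (i0 : Fin (2 * g + 2)) (U V : ℕ) (hU : 1 ≤ U)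
    (hV : 1 ≤ V) (hbU : b ≤ 2 * U) (v : ℤ × ℤ) (h1 : U ≤ nrm v) (h2 : nrm v ≤ 2 * U)
    (h3 : V ≤ (L (a i0) v).natAbs) (h5 : ∀ i, (L (a i0) v).natAbs ≤ (L (a i) v).natAbs)
    (e z : Fin (2 * g + 2) → ℕ) (he : ∀ i, (L (a i) v).natAbs = z i ^ 2 * e i)
    (hQ : ((∏ i, e i : ℕ) : ℝ) ≤ b ^ (2 * g + 2) * (D:ℝ) ^ (2 * g + 2)) :
    (1 / (2 * (K1 a : ℝ) * D)) ^ (g + 1) * U * V / b ^ 2 ≤ ((∏ i, z i : ℕ) : ℝ) := by
  classical
  set K := K1 a with hK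
  have hK2 : 2 ≤ K := by have := le_K1 a i0; omega
  have hKR : (0:ℝ) < K := by positivity
  have hDR : (0:ℝ) < D := by positivity
  have hUR : (1:ℝ) ≤ U := by exact_mod_cast hU
  have hVR : (1:ℝ) ≤ V := by exact_mod_cast hV
  have hb0 : (0:ℝ) < b := by linarith
  refine (pow_le_pow_iff_left₀ (by positivity) (Nat.cast_nonneg _) two_ne_zero).mp ?_
  -- squares
  have hprodL : (V:ℝ) * ((U:ℝ) / K) ^ (2 * g + 1) ≤ ((∏ i, (L (a i) v).natAbs : ℕ) : ℝ) := by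
    rw [← Finset.mul_prod_erase _ _ (Finset.mem_univ i0)]
    push_cast
    have hc : (Finset.univ.erase i0).card = 2 * g + 1 := by
      rw [Finset.card_erase_of_mem (Finset.mem_univ _), Finset.card_univ, Fintype.card_fin]; omega
    apply mul_le_mul
    · exact_mod_cast h3
    · rw [← hc, ← Finset.prod_const]
      apply Finset.prod_le_prod
      · intro i _; positivity
      · intro i hi
        have hne := Finset.ne_of_mem_erase hi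
        have h6 := nrm_le a ha i0 i hne v (h5 i)
        rw [div_le_iff₀ hKR]
        have h7 : U ≤ K * (L (a i) v).natAbs := h1.trans h6
        have h8 : (U:ℝ) ≤ K * ((L (a i) v).natAbs : ℝ) := by exact_mod_cast h7
        have h9 : ((L (a i) v).natAbs : ℝ) = |((L (a i) v : ℤ) : ℝ)| := Nat.cast_natAbs _ |>.trans (by simp)
        first
          | linarith
          | (rw [h9] at h8; linarith)
    · positivity
    · positivity
  have hprod : ((∏ i, (L (a i) v).natAbs : ℕ) : ℝ) =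
      ((∏ i, z i : ℕ) : ℝ) ^ 2 * ((∏ i, e i : ℕ) : ℝ) := by
    rw [Finset.prod_congr rfl (fun i _ => he i), Finset.prod_mul_distrib, Finset.prod_pow]
    push_cast; ring
  have hVU : (V:ℝ) ≤ 2 * K * U := by
    have h10 : V ≤ K * (2 * U) := h3.trans ((L_le a i0 v).trans (Nat.mul_le_mul_left _ h2))
    have : (V:ℝ) ≤ K * (2 * U) := by exact_mod_cast h10
    linarith
  have hbpow : b ^ (2 * g - 2) ≤ (2 * (U:ℝ)) ^ (2 * g - 2) := pow_le_pow_left₀ hb0.le hbU _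
  have hmain : V * ((U:ℝ) / K) ^ (2 * g + 1) ≤
      ((∏ i, z i : ℕ) : ℝ) ^ 2 * (b ^ (2 * g + 2) * (D:ℝ) ^ (2 * g + 2)) := by
    calc _ ≤ _ := hprodL
      _ = _ := hprod
      _ ≤ _ := mul_le_mul_of_nonneg_left hQ (by positivity)
  obtain ⟨m, rfl⟩ : ∃ m, g = m + 1 := ⟨g - 1, by omega⟩
  have e1 : 2 * (m + 1) - 2 = 2 * m := by omega
  rw [e1] at hbpow
  have hfin : ((1 / (2 * (K : ℝ) * D)) ^ (m + 1 + 1) * U * V / b ^ 2) ^ 2 *
      (b ^ (2 * (m + 1) + 2) * (D:ℝ) ^ (2 * (m + 1) + 2)) ≤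
      V * ((U:ℝ) / K) ^ (2 * (m + 1) + 1) := by
    have e2 : ((1 / (2 * (K : ℝ) * D)) ^ (m + 1 + 1) * U * V / b ^ 2) ^ 2 *
        (b ^ (2 * (m + 1) + 2) * (D:ℝ) ^ (2 * (m + 1) + 2)) =
        (1 / (2 * (K:ℝ))) ^ (2 * m + 4) * (U ^ 2 * V * V * b ^ (2 * m)) := by
      have e3 : 1 / (2 * (K:ℝ) * D) = (1 / (2 * (K:ℝ))) * (1 / D) := by field_simp
      rw [e3]
      exact alg1 _ _ _ _ _ _ m (by field_simp) hb0.ne'
    rw [e2]
    calc (1 / (2 * (K:ℝ))) ^ (2 * m + 4) * (U ^ 2 * V * V * b ^ (2 * m))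
        ≤ (1 / (2 * (K:ℝ))) ^ (2 * m + 4) * (U ^ 2 * V * (2 * K * U) * (2 * (U:ℝ)) ^ (2 * m)) := by
          gcongr
      _ = V * ((U:ℝ) / K) ^ (2 * (m + 1) + 1) * (1 / 8) := by
          have e4 : 1 / (2 * (K:ℝ)) = (1 / K) / 2 := by field_simp
          rw [e4, alg2 (K:ℝ) (1 / K) U V m (by field_simp), mul_one_div (U:ℝ) (K:ℝ)]
      _ ≤ V * ((U:ℝ) / K) ^ (2 * (m + 1) + 1) * 1 := by gcongr; norm_num
      _ = _ := mul_one _
  have hpos : (0:ℝ) < b ^ (2 * (m + 1) + 2) * (D:ℝ) ^ (2 * (m + 1) + 2) := by positivity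
  exact le_of_mul_le_mul_right (hfin.trans hmain) hpos

end Pool.Agent.W2helper36.HT
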