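import Pool.Agent.W2helper36.HT.D

namespace Pool.Agent.W2helper36.HT

lemma class_bound {g : ℕ} (hg : 1 ≤ g) (a : Fin (2 * g + 2) → ℤ × ℤ)
    (ha : ∀ i j, i ≠ j → det (a i) (a j) ≠ 0) (hac : ∀ i, IsCoprime (a i).1 (a i).2)
    (D : ℕ) (hD : 1 ≤ D) (ε : ℝ) (hε : 0 < ε) (R : ℝ) (hR : 1 ≤ R) :
    ∃ C : ℝ, 0 ≤ C ∧ ∀ b : ℝ, 1 ≤ b → ∀ (i0 : Fin (2 * g + 2)) (U V : ℕ), 1 ≤ U → 1 ≤ V →
      b ≤ 2 * U → (U : ℝ) ^ 3 ≤ R * b ^ 5 → ∀ s : Finset (ℤ × ℤ),
      (∀ v ∈ s, InClass a i0 U V (b ^ (2 * g + 2) * (D:ℝ) ^ (2 * g + 2)) v) →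
      (s.card : ℝ) ≤ C * b ^ (2 + 2 * ε) := by
  classical
  set K := K1 a with hK
  have hK2 : 2 ≤ K := by have := le_K1 a 0; omega
  have hKR : (2:ℝ) ≤ K := by exact_mod_cast hK2
  have hDR : (1:ℝ) ≤ D := by exact_mod_cast hD
  set κ : ℝ := (1 / (2 * (K : ℝ) * D)) ^ (g + 1) with hκ
  have hκ0 : 0 < κ := by rw [hκ]; positivity
  have hκ1 : κ ≤ 1 := by
    rw [hκ]
    apply pow_le_one₀ (by positivity)
    rw [div_le_one (by positivity)]
    nlinarith
  set Z : ℝ := (∑' n : ℕ, ((n:ℝ)) ^ (-(1 + ε))) with hZ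
  have hZ0 : 0 ≤ Z := tsum_nonneg (fun n => by positivity)
  set E : ℝ := 80 * (Dd a : ℝ) ^ ((2 * g + 2) * (2 * g + 2)) with hE
  have hE0 : 0 ≤ E := by positivity
  refine ⟨(5 * ((2 * K) ^ 2 * R) + E / κ) * ((2 * K) ^ 2 * R) ^ ε * Z ^ (2 * g + 2), by positivity, ?_⟩
  intro b hb i0 U V hU hV hbU hUb s hs
  have hb0 : (0:ℝ) < b := by linarith
  have hUR : (1:ℝ) ≤ U := by exact_mod_cast hU
  have hVR : (1:ℝ) ≤ V := by exact_mod_cast hV
  set W : ℝ := κ * U * V / b ^ 2 with hW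
  set P : ℝ := (2 * K) ^ 2 * R * b ^ 2 with hP
  have hP1 : 1 ≤ P := by
    rw [hP]
    exact one_le_mul_of_one_le_of_one_le (one_le_mul_of_one_le_of_one_le
      (one_le_pow₀ (by linarith)) hR) (one_le_pow₀ hb)
  set X := 2 * K * U with hX
  set Fam := (Fintype.piFinset (fun _ : Fin (2 * g + 2) => Finset.Icc 1 X)).filter
    (fun z => W ≤ ((∏ i, z i : ℕ) : ℝ) ∧ ((∏ i, z i : ℕ) : ℝ) ≤ P) with hFam
  have hcover : s ⊆ Fam.biUnion (fun z => s.filter (fun v => ∀ i, (z i ^ 2 : ℕ) ∣ (L (a i) v).natAbs)) := by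
    intro v hv
    obtain ⟨hc, h1, h2, h3, h4, h5, e, z, he, hQ⟩ := hs v hv
    have hWz := W_le hg a ha D hD b hb i0 U V hU hV hbU v h1 h2 h3 h5 e z he hQ
    rw [← hK, ← hκ] at hWz
    have hLpos : ∀ i, 1 ≤ (L (a i) v).natAbs := fun i => hV.trans (h3.trans (h5 i))
    have hz1 : ∀ i, 1 ≤ z i := by
      intro i
      rcases Nat.eq_zero_or_pos (z i) with h | h
      · have := hLpos i
        rw [he i, h] at this; simp at this
      · exact h
    have he1 : ∀ i, 1 ≤ e i := by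
      intro i
      rcases Nat.eq_zero_or_pos (e i) with h | h
      · have := hLpos i
        rw [he i, h] at this; simp at this
      · exact h
    have hzL : ∀ i, z i ^ 2 ≤ 2 * K * U := by
      intro i
      calc z i ^ 2 = z i ^ 2 * 1 := (mul_one _).symm
        _ ≤ z i ^ 2 * e i := Nat.mul_le_mul_left _ (he1 i)
        _ = (L (a i) v).natAbs := (he i).symm
        _ ≤ K * nrm v := L_le a i v
        _ ≤ K * (2 * U) := Nat.mul_le_mul_left _ h2
        _ = _ := by ring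
    have hzY : ∀ i, (z i : ℝ) ^ 2 ≤ 2 * K * U := by
      intro i
      exact_mod_cast hzL i
    have h2K : (1:ℝ) ≤ 2 * K := by linarith
    obtain ⟨z', g1, g2, g3, g4⟩ := greedy z hz1 W (2 * K * U) hzY
      (one_le_mul_of_one_le_of_one_le h2K hUR) hWz
    have hVU : (V:ℝ) ≤ 2 * K * U := by
      have h10 : V ≤ K * (2 * U) := h3.trans ((L_le a i0 v).trans (Nat.mul_le_mul_left _ h2))
      have : (V:ℝ) ≤ K * (2 * U) := by exact_mod_cast h10
      linarith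
    have hW0 : 0 ≤ W := by positivity
    have hWle : W ≤ 2 * K * U ^ 2 / b ^ 2 := by
      rw [hW]
      apply div_le_div_of_nonneg_right _ (by positivity)
      calc κ * U * V ≤ 1 * U * (2 * K * U) := by gcongr
        _ = _ := by ring
    have hUP : 2 * K * U ≤ P := by
      have h11 : (U:ℝ) ≤ R * b ^ 2 := by
        refine (pow_le_pow_iff_left₀ (by positivity) (by positivity) (three_ne_zero)).mp ?_
        calc (U:ℝ) ^ 3 ≤ R * b ^ 5 := hUb
          _ ≤ R ^ 3 * b ^ 6 := by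
              have r1 : R ≤ R ^ 3 := le_self_pow₀ hR (by norm_num)
              have r2 : b ^ 5 ≤ b ^ 6 := pow_le_pow_right₀ hb (by norm_num)
              gcongr
          _ = (R * b ^ 2) ^ 3 := by ring
      calc 2 * (K:ℝ) * U ≤ 2 * K * (R * b ^ 2) := by gcongr
        _ = (2 * K * 1) * (R * b ^ 2) := by ring
        _ ≤ (2 * K * (2 * K)) * (R * b ^ 2) := by gcongr
        _ = P := by rw [hP]; ring
    have hWP : ∀ p : ℝ, 0 ≤ p → p ^ 2 ≤ W ^ 3 → p ≤ P := by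
      intro p hp0 hp
      refine (pow_le_pow_iff_left₀ hp0 (by positivity) two_ne_zero).mp ?_
      calc p ^ 2 ≤ W ^ 3 := hp
        _ ≤ (2 * K * U ^ 2 / b ^ 2) ^ 3 := by gcongr
        _ = (2 * K) ^ 3 * ((U:ℝ) ^ 3) ^ 2 / b ^ 6 := by field_simp
        _ ≤ (2 * K) ^ 3 * (R * b ^ 5) ^ 2 / b ^ 6 := by gcongr
        _ = (2 * K) ^ 3 * 1 * (R ^ 2 * b ^ 4) := by field_simp
        _ ≤ (2 * K) ^ 3 * (2 * K) * (R ^ 2 * b ^ 4) := by gcongr
        _ = P ^ 2 := by rw [hP]; ring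
    rw [Finset.mem_biUnion]
    refine ⟨z', ?_, ?_⟩
    · rw [hFam, Finset.mem_filter, Fintype.mem_piFinset]
      refine ⟨fun i => ?_, g3, ?_⟩
      · rw [Finset.mem_Icc]
        refine ⟨g2 i, ?_⟩
        calc z' i ≤ z i := Nat.le_of_dvd (hz1 i) (g1 i)
          _ ≤ z i ^ 2 := Nat.le_self_pow two_ne_zero _
          _ ≤ X := hzL i
      · rcases g4 with g4 | g4
        · exact g4.trans hUP
        · exact hWP _ (Nat.cast_nonneg _) g4
    · rw [Finset.mem_filter]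
      refine ⟨hv, fun i => ?_⟩
      rw [he i]
      exact Dvd.dvd.mul_right (pow_dvd_pow_of_dvd (g1 i) 2) _
  set C0 : ℝ := (5 * P + E * (b ^ 2 / κ)) * P ^ ε with hC0
  have hC00 : 0 ≤ C0 := by positivity
  have hterm : ∀ z ∈ Fam, ((s.filter (fun v => ∀ i, (z i ^ 2 : ℕ) ∣ (L (a i) v).natAbs)).card : ℝ) ≤
      C0 * ∏ i, ((z i : ℝ)) ^ (-(1 + ε)) := by
    intro z hz
    rw [hFam, Finset.mem_filter, Fintype.mem_piFinset] at hz
    obtain ⟨z1, z2, z3⟩ := hz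
    have hz1 : ∀ i, 1 ≤ z i := fun i => (Finset.mem_Icc.mp (z1 i)).1
    have hcc := class_count a ha hac i0 U V z hz1
      (s.filter (fun v => ∀ i, (z i ^ 2 : ℕ) ∣ (L (a i) v).natAbs)) (by
        intro v hv
        rw [Finset.mem_filter] at hv
        obtain ⟨hc, h1, h2, h3, h4, h5, -⟩ := hs v hv.1
        exact ⟨hc, h2, h4, hv.2⟩)
    set p : ℝ := ((∏ i, z i : ℕ) : ℝ) with hp
    have hp1 : 1 ≤ p := by
      have h0 : 0 < ∏ i, z i := Finset.prod_pos (fun i _ => hz1 i)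
      rw [hp]; exact_mod_cast h0
    have hp0 : 0 < p := by linarith
    have hprodp : ∏ i, ((z i : ℝ)) ^ (-(1 + ε)) = p ^ (-(1 + ε)) := by
      rw [hp]; push_cast
      exact Real.finset_prod_rpow _ _ (fun i _ => Nat.cast_nonneg _) _
    rw [hprodp]
    have hUV : (U:ℝ) * V ≤ p * (b ^ 2 / κ) := by
      have : (U:ℝ) * V = W * (b ^ 2 / κ) := by rw [hW]; field_simp
      rw [this]; gcongr
    calc _ ≤ _ := hcc
      _ = 5 + E * (U * V) / p ^ 2 := by rw [hE]; ring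
      _ ≤ 5 + E * (p * (b ^ 2 / κ)) / p ^ 2 := by gcongr
      _ = (5 * p + E * (b ^ 2 / κ)) * p ^ (-(1:ℝ)) := by
          rw [Real.rpow_neg_one]; field_simp
      _ ≤ (5 * P + E * (b ^ 2 / κ)) * (P ^ ε * p ^ (-(1 + ε))) := by
          apply mul_le_mul
          · gcongr
          · have h1 : p ^ (-(1:ℝ)) = p ^ ε * p ^ (-(1 + ε)) := by
              rw [← Real.rpow_add hp0]; congr 1; ring
            rw [h1]
            gcongr
          · positivity
          · positivity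
      _ = _ := by rw [hC0]; ring
  calc (s.card : ℝ) ≤ ((Fam.biUnion (fun z => s.filter
        (fun v => ∀ i, (z i ^ 2 : ℕ) ∣ (L (a i) v).natAbs))).card : ℝ) := by
        exact_mod_cast Finset.card_le_card hcover
    _ ≤ ∑ z ∈ Fam, ((s.filter (fun v => ∀ i, (z i ^ 2 : ℕ) ∣ (L (a i) v).natAbs)).card : ℝ) := by
        exact_mod_cast Finset.card_biUnion_le
    _ ≤ ∑ z ∈ Fam, C0 * ∏ i, ((z i : ℝ)) ^ (-(1 + ε)) := Finset.sum_le_sum hterm
    _ = C0 * ∑ z ∈ Fam, ∏ i, ((z i : ℝ)) ^ (-(1 + ε)) := by rw [Finset.mul_sum]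
    _ ≤ C0 * ∑ z ∈ Fintype.piFinset (fun _ : Fin (2 * g + 2) => Finset.Icc 1 X),
          ∏ i, ((z i : ℝ)) ^ (-(1 + ε)) := by
        apply mul_le_mul_of_nonneg_left _ hC00
        apply Finset.sum_le_sum_of_subset_of_nonneg (Finset.filter_subset _ _)
        intro z _ _
        exact Finset.prod_nonneg (fun i _ => by positivity)
    _ ≤ C0 * Z ^ (2 * g + 2) := mul_le_mul_of_nonneg_left (rankin _ X ε hε) hC00
    _ = _ := by
        have h1 : b ^ (2 + 2 * ε) = b ^ 2 * (b ^ 2) ^ ε := by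
          rw [Real.rpow_add hb0, Real.rpow_mul hb0.le]; norm_num
        have h2 : P ^ ε = ((2 * (K:ℝ)) ^ 2 * R) ^ ε * (b ^ 2) ^ ε := by
          rw [hP]; exact Real.mul_rpow (by positivity) (by positivity)
        rw [hC0, h1, h2, hP]; ring

end Pool.Agent.W2helper36.HT
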