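import Pool.Agent.W2helper36.HT.E

namespace Pool.Agent.W2helper36.HT

lemma log_bound (n : ℕ) (T η : ℝ) (hη : 0 < η) (hn : (n:ℝ) ≤ T) (hT : 1 ≤ T) :
    ((Nat.log 2 n + 1 : ℕ) : ℝ) ≤ (1 + 2 / η) * T ^ η := by
  have h1 : (Nat.log 2 n : ℝ) ≤ 2 * (T ^ η / η) := by
    rcases Nat.eq_zero_or_pos n with h | h
    · rw [h]; simp; positivity
    · have hnR : (0:ℝ) < n := by exact_mod_cast h
      have h2 : (Nat.log 2 n : ℝ) ≤ Real.logb 2 n := by
        have := Real.natLog_le_logb n 2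
        exact_mod_cast this
      have h3 : Real.logb 2 n ≤ 2 * Real.log T := by
        rw [Real.logb]
        have hl2 : (1:ℝ) / 2 ≤ Real.log 2 := by have := Real.log_two_gt_d9; linarith
        have hl2' : 0 < Real.log 2 := by linarith
        rw [div_le_iff₀ hl2']
        have h4 : Real.log n ≤ Real.log T := Real.log_le_log hnR hn
        have h5 : 0 ≤ Real.log T := Real.log_nonneg hT
        nlinarith
      have h6 : Real.log T ≤ T ^ η / η := Real.log_le_rpow_div (by linarith) hη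
      linarith
  have h7 : 1 ≤ T ^ η := Real.one_le_rpow hT hη.le
  push_cast
  calc (Nat.log 2 n : ℝ) + 1 ≤ 2 * (T ^ η / η) + T ^ η := add_le_add h1 h7
    _ = _ := by ring

/-- the set of good points -/
def Good {r : ℕ} (a : Fin r → ℤ × ℤ) (Q : ℝ) (v : ℤ × ℤ) : Prop :=
  IsCoprime v.1 v.2 ∧ (∀ i, L (a i) v ≠ 0) ∧
    ∃ e z : Fin r → ℕ, (∀ i, (L (a i) v).natAbs = z i ^ 2 * e i) ∧ ((∏ i, e i : ℕ) : ℝ) ≤ Q

lemma nrm_pos (v : ℤ × ℤ) (h : IsCoprime v.1 v.2) : 1 ≤ nrm v := by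
  by_contra hc
  have h00 : nrm v = 0 := by omega
  have a1 : v.1 = 0 := by
    have : v.1.natAbs ≤ nrm v := le_max_left _ _
    omega
  have a2 : v.2 = 0 := by
    have : v.2.natAbs ≤ nrm v := le_max_right _ _
    omega
  rw [a1, a2] at h
  exact not_isCoprime_zero_zero h

lemma mem_box (v : ℤ × ℤ) (n : ℕ) (h : nrm v ≤ n) :
    v ∈ Finset.Icc (-(n:ℤ)) n ×ˢ Finset.Icc (-(n:ℤ)) n := by
  have h1 : v.1.natAbs ≤ n := le_trans (le_max_left _ _) h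
  have h2 : v.2.natAbs ≤ n := le_trans (le_max_right _ _) h
  rw [Finset.mem_product, Finset.mem_Icc, Finset.mem_Icc]
  omega

lemma good_count {g : ℕ} (hg : 1 ≤ g) (a : Fin (2 * g + 2) → ℤ × ℤ)
    (ha : ∀ i j, i ≠ j → det (a i) (a j) ≠ 0) (hac : ∀ i, IsCoprime (a i).1 (a i).2)
    (D : ℕ) (hD : 1 ≤ D) (η : ℝ) (hη : 0 < η) (R : ℝ) (hR : 1 ≤ R) :
    ∃ C : ℝ, 0 ≤ C ∧ ∀ b : ℝ, 1 ≤ b → ∀ s : Finset (ℤ × ℤ),
      (∀ v ∈ s, Good a (b ^ (2 * g + 2) * (D:ℝ) ^ (2 * g + 2)) v ∧ (nrm v : ℝ) ≤ R * b ^ 2 ∧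
        (nrm v : ℝ) ^ 3 ≤ R * b ^ 5) →
      (s.card : ℝ) ≤ C * b ^ (2 + 6 * η) := by
  classical
  obtain ⟨C1, hC1, hclass⟩ := class_bound hg a ha hac D hD η hη R hR
  set K := K1 a with hK
  have hK2 : 2 ≤ K := by have := le_K1 a 0; omega
  have hKR : (2:ℝ) ≤ K := by exact_mod_cast hK2
  set CJ : ℝ := (1 + 2 / η) * (K * R) ^ η with hCJ
  have hCJ0 : 0 ≤ CJ := by rw [hCJ]; positivity
  refine ⟨9 + (2 * g + 2) * CJ ^ 2 * C1, by positivity, ?_⟩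
  intro b hb s hs
  have hb0 : (0:ℝ) < b := by linarith
  set Q := b ^ (2 * g + 2) * (D:ℝ) ^ (2 * g + 2) with hQ
  set n := K * ⌊R * b ^ 2⌋₊ with hn
  set J := Nat.log 2 n + 1 with hJ
  have hT1 : 1 ≤ K * R * b ^ 2 :=
    one_le_mul_of_one_le_of_one_le (one_le_mul_of_one_le_of_one_le (by linarith) hR) (one_le_pow₀ hb)
  have hnT : (n:ℝ) ≤ K * R * b ^ 2 := by
    rw [hn]; push_cast
    have h1 : ((⌊R * b ^ 2⌋₊ : ℕ) : ℝ) ≤ R * b ^ 2 := Nat.floor_le (by positivity)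
    calc (K:ℝ) * (⌊R * b ^ 2⌋₊ : ℕ) ≤ K * (R * b ^ 2) := by gcongr
      _ = _ := by ring
  have hJb : (J:ℝ) ≤ CJ * b ^ (2 * η) := by
    have h1 := log_bound n _ η hη hnT hT1
    have h2 : ((K:ℝ) * R * b ^ 2) ^ η = (K * R) ^ η * b ^ (2 * η) := by
      rw [Real.mul_rpow (by positivity) (by positivity), Real.rpow_mul hb0.le]
      norm_num
    rw [h2] at h1
    calc (J:ℝ) ≤ _ := h1
      _ = _ := by rw [hCJ]; ring
  set small := Finset.Icc (-((⌊b⌋₊ : ℕ):ℤ)) (⌊b⌋₊ : ℕ) ×ˢ Finset.Icc (-((⌊b⌋₊:ℕ):ℤ)) (⌊b⌋₊ : ℕ)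
    with hsmall
  have hsmallcard : (small.card : ℝ) ≤ 9 * b ^ 2 := by
    rw [hsmall, Finset.card_product, Int.card_Icc]
    have h1 : (((⌊b⌋₊ : ℕ) : ℤ) + 1 - -((⌊b⌋₊ : ℕ):ℤ)).toNat = 2 * ⌊b⌋₊ + 1 := by omega
    rw [h1]; push_cast
    have h2 : ((⌊b⌋₊ : ℕ) : ℝ) ≤ b := Nat.floor_le hb0.le
    have h3 : (0:ℝ) ≤ ((⌊b⌋₊ : ℕ) : ℝ) := Nat.cast_nonneg _
    calc (2 * ((⌊b⌋₊ : ℕ) : ℝ) + 1) * (2 * ((⌊b⌋₊ : ℕ) : ℝ) + 1) ≤ (3 * b) * (3 * b) := by
          apply mul_le_mul <;> linarith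
      _ = _ := by ring
  let cls : Fin (2 * g + 2) × ℕ × ℕ → Finset (ℤ × ℤ) := fun t =>
    s.filter (fun v => InClass a t.1 (2 ^ t.2.1) (2 ^ t.2.2) Q v ∧ b ≤ 2 * ((2 ^ t.2.1 : ℕ) : ℝ) ∧
      ((2 ^ t.2.1 : ℕ) : ℝ) ^ 3 ≤ R * b ^ 5)
  let idx : Finset (Fin (2 * g + 2) × ℕ × ℕ) :=
    Finset.univ ×ˢ (Finset.range J ×ˢ Finset.range J)
  have hcover : s ⊆ small ∪ idx.biUnion cls := by
    intro v hv
    obtain ⟨⟨hc, hne, hez⟩, hN1, hN2⟩ := hs v hv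
    rw [Finset.mem_union]
    by_cases hNb : (nrm v : ℝ) ≤ b
    · left
      exact mem_box v _ (Nat.le_floor hNb)
    · right
      push Not at hNb
      obtain ⟨i0, -, hi0⟩ := Finset.exists_min_image Finset.univ
        (fun i => (L (a i) v).natAbs) ⟨0, Finset.mem_univ 0⟩
      have hNpos := nrm_pos v hc
      have hLpos : 1 ≤ (L (a i0) v).natAbs := Int.natAbs_pos.mpr (hne i0)
      have hj1 : 2 ^ Nat.log 2 (nrm v) ≤ nrm v := Nat.pow_log_le_self 2 (by omega)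
      have hj2 : nrm v < 2 ^ (Nat.log 2 (nrm v) + 1) := Nat.lt_pow_succ_log_self (by norm_num) _
      have hk1 : 2 ^ Nat.log 2 (L (a i0) v).natAbs ≤ (L (a i0) v).natAbs :=
        Nat.pow_log_le_self 2 (by omega)
      have hk2 : (L (a i0) v).natAbs < 2 ^ (Nat.log 2 (L (a i0) v).natAbs + 1) :=
        Nat.lt_pow_succ_log_self (by norm_num) _
      have hNfl : nrm v ≤ ⌊R * b ^ 2⌋₊ := Nat.le_floor hN1
      have hNn : nrm v ≤ n := by
        rw [hn]; exact hNfl.trans (Nat.le_mul_of_pos_left _ (by omega))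
      have hLn : (L (a i0) v).natAbs ≤ n := (L_le a i0 v).trans (Nat.mul_le_mul_left _ hNfl)
      rw [Finset.mem_biUnion]
      refine ⟨(i0, Nat.log 2 (nrm v), Nat.log 2 (L (a i0) v).natAbs), ?_, ?_⟩
      · simp only [idx, Finset.mem_product, Finset.mem_univ, true_and, Finset.mem_range]
        exact ⟨Nat.lt_succ_of_le (Nat.log_mono_right hNn),
          Nat.lt_succ_of_le (Nat.log_mono_right hLn)⟩
      · simp only [cls, Finset.mem_filter]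
        refine ⟨hv, ⟨hc, hj1, ?_, hk1, ?_, fun i => hi0 i (Finset.mem_univ i), hez⟩, ?_, ?_⟩
        · rw [pow_succ] at hj2; omega
        · rw [pow_succ] at hk2; omega
        · have h1 : ((nrm v : ℕ) : ℝ) ≤ ((2 ^ (Nat.log 2 (nrm v) + 1) : ℕ) : ℝ) := by
            exact_mod_cast hj2.le
          rw [pow_succ] at h1
          push_cast at h1 ⊢
          linarith
        · have h1 : ((2 ^ Nat.log 2 (nrm v) : ℕ) : ℝ) ≤ (nrm v : ℝ) := by exact_mod_cast hj1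
          exact (pow_le_pow_left₀ (Nat.cast_nonneg _) h1 3).trans hN2
  have hcls : ∀ t ∈ idx, ((cls t).card : ℝ) ≤ C1 * b ^ (2 + 2 * η) := by
    intro t ht
    by_cases hne : (cls t).Nonempty
    · obtain ⟨v0, hv0⟩ := hne
      have h0 := (Finset.mem_filter.mp hv0).2
      apply hclass b hb t.1 (2 ^ t.2.1) (2 ^ t.2.2) Nat.one_le_two_pow Nat.one_le_two_pow h0.2.1
        h0.2.2
      intro v hv
      exact (Finset.mem_filter.mp hv).2.1
    · rw [Finset.not_nonempty_iff_eq_empty] at hne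
      rw [hne]; simp; positivity
  have hidx : (idx.card : ℝ) = (2 * g + 2) * J ^ 2 := by
    simp only [idx, Finset.card_product, Finset.card_univ, Fintype.card_fin, Finset.card_range]
    push_cast; ring
  have hbpow : b ^ 2 ≤ b ^ (2 + 6 * η) := by
    rw [← Real.rpow_natCast b 2]
    exact Real.rpow_le_rpow_of_exponent_le hb (by push_cast; linarith)
  calc (s.card : ℝ) ≤ ((small ∪ idx.biUnion cls).card : ℝ) := by
        exact_mod_cast Finset.card_le_card hcover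
    _ ≤ (small.card : ℝ) + ((idx.biUnion cls).card : ℝ) := by
        exact_mod_cast Finset.card_union_le _ _
    _ ≤ 9 * b ^ 2 + ∑ t ∈ idx, ((cls t).card : ℝ) := by
        apply add_le_add hsmallcard
        exact_mod_cast Finset.card_biUnion_le
    _ ≤ 9 * b ^ 2 + ∑ t ∈ idx, C1 * b ^ (2 + 2 * η) :=
        add_le_add le_rfl (Finset.sum_le_sum hcls)
    _ = 9 * b ^ 2 + (2 * g + 2) * J ^ 2 * (C1 * b ^ (2 + 2 * η)) := by
        rw [Finset.sum_const, nsmul_eq_mul, hidx]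
    _ ≤ 9 * b ^ (2 + 6 * η) + (2 * g + 2) * (CJ * b ^ (2 * η)) ^ 2 * (C1 * b ^ (2 + 2 * η)) := by
        gcongr
    _ = _ := by
        have h1 : b ^ (2 + 6 * η) = (b ^ (2 * η)) ^ 2 * b ^ (2 + 2 * η) := by
          rw [← Real.rpow_natCast (b ^ (2 * η)) 2, ← Real.rpow_mul hb0.le, ← Real.rpow_add hb0]
          congr 1; push_cast; ring
        rw [h1]; ring

end Pool.Agent.W2helper36.HT
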