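import Pool.Agent.W2helper36.HT.F

namespace Pool.Agent.W2helper36.HT

lemma main_count {g : ℕ} (hg : 1 ≤ g) (a : Fin (2 * g + 2) → ℤ × ℤ)
    (ha : ∀ i j, i ≠ j → det (a i) (a j) ≠ 0) (hac : ∀ i, IsCoprime (a i).1 (a i).2)
    (c : ℤ) (hc : c ≠ 0) (ε : ℝ) (hε : 0 < ε) (R : ℝ) (hR : 1 ≤ R) :
    ∃ C : ℝ, 0 ≤ C ∧ ∀ B : ℝ, 1 ≤ B → ∀ S : Set ℤ,
      (∀ d ∈ S, Squarefree d ∧ |(d:ℝ)| ≤ B ∧ ∃ v : ℤ × ℤ, IsCoprime v.1 v.2 ∧
        (nrm v : ℝ) ≤ R * B ^ ((5:ℝ) / (6 * (g + 1))) ∧ ∃ q : ℚ, q ≠ 0 ∧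
          (c:ℚ) * ∏ i, (L (a i) v : ℚ) = d * q ^ 2) →
      (S.ncard : ℝ) ≤ C * B ^ ((1:ℝ) / (g + 1) + ε) := by
  classical
  set D := c.natAbs * Dd a with hD
  have hD1 : 1 ≤ D := Nat.mul_pos (Int.natAbs_pos.mpr hc) (Dd_pos a ha)
  have hg0 : (0:ℝ) < (g:ℝ) + 1 := by positivity
  set η : ℝ := ε * (g + 1) / 3 with hη
  have hη0 : 0 < η := by positivity
  have hR5 : (1:ℝ) ≤ R ^ 3 := one_le_pow₀ hR
  obtain ⟨C, hC0, hC⟩ := good_count hg a ha hac D hD1 η hη0 (R ^ 3) hR5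
  refine ⟨C, hC0, ?_⟩
  intro B hB S hS
  have hB0 : (0:ℝ) < B := by linarith
  set b : ℝ := B ^ ((1:ℝ) / (2 * g + 2)) with hb
  have hb1 : 1 ≤ b := Real.one_le_rpow hB (by positivity)
  have hb0 : (0:ℝ) < b := by linarith
  have hbr : b ^ (2 * g + 2) = B := by
    rw [hb, ← Real.rpow_natCast, ← Real.rpow_mul hB0.le]
    have : (1:ℝ) / (2 * g + 2) * ((2 * g + 2 : ℕ) : ℝ) = 1 := by push_cast; field_simp
    rw [this, Real.rpow_one]
  have hb2 : b ^ 2 = B ^ ((1:ℝ) / (g + 1)) := by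
    rw [hb, ← Real.rpow_natCast, ← Real.rpow_mul hB0.le]
    congr 1; push_cast; field_simp
  have hb8 : b ^ 5 = (B ^ ((5:ℝ) / (6 * (g + 1)))) ^ 3 := by
    rw [hb, ← Real.rpow_natCast, ← Real.rpow_mul hB0.le, ← Real.rpow_natCast _ 3,
      ← Real.rpow_mul hB0.le]
    congr 1; push_cast; field_simp; norm_num
  have hfin : C * b ^ (2 + 6 * η) = C * B ^ ((1:ℝ) / (g + 1) + ε) := by
    congr 1
    rw [hb, ← Real.rpow_mul hB0.le]
    congr 1; rw [hη]; field_simp; ring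
  set T : ℝ := B ^ ((5:ℝ) / (6 * (g + 1))) with hT
  have hTb : T ≤ b ^ 2 := by
    rw [hT, hb2]
    apply Real.rpow_le_rpow_of_exponent_le hB
    rw [div_le_div_iff₀ (by positivity) (by positivity)]
    nlinarith
  have hT0 : 0 ≤ T := by positivity
  let V : Finset (ℤ × ℤ) := (Finset.Icc (-((⌊R * T⌋₊ : ℕ):ℤ)) (⌊R * T⌋₊ : ℕ) ×ˢ
    Finset.Icc (-((⌊R * T⌋₊ : ℕ):ℤ)) (⌊R * T⌋₊ : ℕ)).filter
      (fun v => Good a (b ^ (2 * g + 2) * (D:ℝ) ^ (2 * g + 2)) v ∧ (nrm v : ℝ) ≤ R * T)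
  have hV : (V.card : ℝ) ≤ C * b ^ (2 + 6 * η) := by
    apply hC b hb1
    intro v hv
    have hv' := (Finset.mem_filter.mp hv).2
    refine ⟨hv'.1, ?_, ?_⟩
    · calc (nrm v : ℝ) ≤ R * T := hv'.2
        _ ≤ R ^ 3 * b ^ 2 := by
            have : R ≤ R ^ 3 := le_self_pow₀ hR (by norm_num)
            gcongr
    · calc (nrm v : ℝ) ^ 3 ≤ (R * T) ^ 3 := pow_le_pow_left₀ (Nat.cast_nonneg _) hv'.2 3
        _ = R ^ 3 * b ^ 5 := by rw [mul_pow, hb8]
  have hex : ∀ d : ℤ, ∃ v : ℤ × ℤ, d ∈ S → (v ∈ V ∧ ∃ q : ℚ, q ≠ 0 ∧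
      (c:ℚ) * ∏ i, (L (a i) v : ℚ) = d * q ^ 2) := by
    intro d
    by_cases hd : d ∈ S
    · obtain ⟨hsq, hdB, v, hv, hvn, q, hq0, hq⟩ := hS d hd
      refine ⟨v, fun _ => ⟨?_, q, hq0, hq⟩⟩
      have hd0 : d ≠ 0 := hsq.ne_zero
      have hne : ∀ i, L (a i) v ≠ 0 := by
        intro i hi
        have h1 : ∏ i, (L (a i) v : ℚ) = 0 :=
          Finset.prod_eq_zero (Finset.mem_univ i) (by rw [hi]; simp)
        rw [h1, mul_zero] at hq
        have hdQ : (d:ℚ) ≠ 0 := by exact_mod_cast hd0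
        exact (mul_ne_zero hdQ (pow_ne_zero 2 hq0)) hq.symm
      have hez : ∀ i, ∃ p : ℕ × ℕ, (L (a i) v).natAbs = p.2 ^ 2 * p.1 ∧ Squarefree p.1 := by
        intro i
        obtain ⟨x, y, h1, h2⟩ := Nat.sq_mul_squarefree (L (a i) v).natAbs
        exact ⟨(x, y), h1.symm, h2⟩
      choose p hp using hez
      have hprod := prod_e_le a ha c hc v hv (fun i => (p i).1) (fun i => (p i).2)
        (fun i => (hp i).1) (fun i => (hp i).2) hne d hd0 q hq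
      simp only [V, Finset.mem_filter]
      refine ⟨mem_box v _ (Nat.le_floor hvn), ⟨hv, hne, fun i => (p i).1, fun i => (p i).2,
        fun i => (hp i).1, ?_⟩, hvn⟩
      calc ((∏ i, (p i).1 : ℕ) : ℝ) ≤ ((d.natAbs * (c.natAbs * Dd a) ^ (2 * g + 2) : ℕ) : ℝ) := by
            exact_mod_cast hprod
        _ = |(d:ℝ)| * (D:ℝ) ^ (2 * g + 2) := by
            rw [← hD]; push_cast
            congr 1
            first
              | rfl
              | rw [Nat.cast_natAbs, Int.cast_abs]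
        _ ≤ b ^ (2 * g + 2) * (D:ℝ) ^ (2 * g + 2) := by rw [hbr]; gcongr
    · exact ⟨(0, 0), fun h => absurd h hd⟩
  choose f hf using hex
  have h1 : S.ncard ≤ (V : Set (ℤ × ℤ)).ncard := by
    apply Set.ncard_le_ncard_of_injOn f
    · intro d hd; exact Finset.mem_coe.mpr (hf d hd).1
    · intro d hd d' hd' hdd
      obtain ⟨-, q, hq0, hq⟩ := hf d hd
      obtain ⟨-, q', hq0', hq'⟩ := hf d' hd'
      rw [hdd] at hq
      exact eq_of_sq_ratio d d' (hS d hd).1 (hS d' hd').1 q q' hq0 (by rw [← hq, ← hq'])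
  rw [Set.ncard_coe_finset] at h1
  rw [← hfin]
  exact (Nat.cast_le.mpr h1).trans hV

lemma forms_of_roots (g n : ℕ) (hn : n = 2 * g + 1 ∨ n = 2 * g + 2) (ρ : Fin n → ℚ)
    (hρ : Function.Injective ρ) :
    ∃ a : Fin (2 * g + 2) → ℤ × ℤ, (∀ i j, i ≠ j → det (a i) (a j) ≠ 0) ∧
      (∀ i, IsCoprime (a i).1 (a i).2) ∧ ∀ u w : ℤ, w ≠ 0 →
        (∏ i, (L (a i) (u, w) : ℚ)) =
          (∏ i, ((ρ i).den : ℚ)) * (w:ℚ) ^ (2 * g + 2) * ∏ i, ((u:ℚ) / w - ρ i) := by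
  have hcop : ∀ x : ℚ, IsCoprime ((x.den : ℤ)) (-x.num) := by
    intro x
    have : IsCoprime x.num (x.den : ℤ) := by
      rw [Int.isCoprime_iff_nat_coprime]; simpa using x.reduced
    exact this.symm.neg_right
  have hdet : ∀ x y : ℚ, x ≠ y → det ((x.den : ℤ), -x.num) ((y.den : ℤ), -y.num) ≠ 0 := by
    intro x y hxy h
    apply hxy
    rw [Rat.eq_iff_mul_eq_mul]
    simp only [det] at h
    linarith
  have hL : ∀ (x : ℚ) (u w : ℤ), w ≠ 0 → (L ((x.den : ℤ), -x.num) (u, w) : ℚ) =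
      (x.den : ℚ) * w * ((u:ℚ) / w - x) := by
    intro x u w hw
    have hwQ : (w:ℚ) ≠ 0 := by exact_mod_cast hw
    have hx : x * x.den = x.num := Rat.mul_den_eq_num x
    simp only [L]
    push_cast
    rw [← hx]
    field_simp
    ring
  rcases hn with rfl | rfl
  · refine ⟨Fin.snoc (fun i : Fin (2 * g + 1) => (((ρ i).den : ℤ), -(ρ i).num)) (0, 1), ?_, ?_, ?_⟩
    · intro i j hij
      rcases Fin.eq_castSucc_or_eq_last i with ⟨i', rfl⟩ | rfl
      · rcases Fin.eq_castSucc_or_eq_last j with ⟨j', rfl⟩ | rfl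
        · rw [Fin.snoc_castSucc, Fin.snoc_castSucc]
          exact hdet _ _ (fun h => hij (by rw [hρ h]))
        · rw [Fin.snoc_castSucc, Fin.snoc_last]
          simp [det]
      · rcases Fin.eq_castSucc_or_eq_last j with ⟨j', rfl⟩ | rfl
        · rw [Fin.snoc_castSucc, Fin.snoc_last]
          simp [det]
        · exact absurd rfl hij
    · intro i
      refine Fin.lastCases ?_ (fun i => ?_) i
      · rw [Fin.snoc_last]; exact isCoprime_one_right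
      · rw [Fin.snoc_castSucc]; exact hcop _
    · intro u w hw
      rw [Fin.prod_univ_castSucc]
      simp only [Fin.snoc_castSucc, Fin.snoc_last]
      rw [Finset.prod_congr rfl (fun i _ => hL (ρ i) u w hw), Finset.prod_mul_distrib,
        Finset.prod_mul_distrib, Finset.prod_const, Finset.card_univ, Fintype.card_fin]
      simp only [L]
      push_cast
      ring
  · refine ⟨fun i => (((ρ i).den : ℤ), -(ρ i).num), fun i j hij => hdet _ _ (fun h => hij (hρ h)),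
      fun i => hcop _, ?_⟩
    intro u w hw
    rw [Finset.prod_congr rfl (fun i _ => hL (ρ i) u w hw), Finset.prod_mul_distrib,
        Finset.prod_mul_distrib, Finset.prod_const, Finset.card_univ, Fintype.card_fin]

end Pool.Agent.W2helper36.HT
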