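import Pool.Agent.W2helper36.HT.G

namespace Pool.Agent.W2helper36.HT

lemma alg3 (α δ D b U V T : ℝ) (l : ℕ) (hδ : δ * D = 1) (hb : b ≠ 0) :
    ((α * δ) ^ (l + 2 + 1) * U * V / b ^ 2 * (T / b)) ^ 2 *
      (b ^ (2 * (l + 2) + 2) * D ^ (2 * (l + 2) + 2)) =
      α ^ (2 * (l + 1) + 4) * (U ^ 2 * V * V * (T ^ 2 * b ^ (2 * l))) := by
  have h1 : δ ^ (2 * l + 6) * D ^ (2 * l + 6) = 1 := by rw [← mul_pow, hδ, one_pow]
  have h2 : b ^ 6 / ((b ^ 2) ^ 2 * b ^ 2) = 1 := by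
    have : b ^ 6 ≠ 0 := pow_ne_zero 6 hb
    rw [← pow_mul, ← pow_add]; exact div_self this
  calc _ = α ^ (2 * (l + 1) + 4) * (δ ^ (2 * l + 6) * D ^ (2 * l + 6)) * (U ^ 2 * V * V * T ^ 2) *
        (b ^ (2 * l) * (b ^ 6 / ((b ^ 2) ^ 2 * b ^ 2))) := by
        rw [mul_pow, div_pow, div_pow]; ring
    _ = _ := by rw [h1, h2]; ring

lemma W_le2 {g : ℕ} (hg : 2 ≤ g) (a : Fin (2 * g + 2) → ℤ × ℤ)
    (ha : ∀ i j, i ≠ j → det (a i) (a j) ≠ 0)
    (D : ℕ) (hD : 1 ≤ D) (b : ℝ) (hb : 1 ≤ b) (i0 : Fin (2 * g + 2)) (U V : ℕ) (hU : 1 ≤ U)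
    (hV : 1 ≤ V) (hbU : b ≤ 2 * U) (v : ℤ × ℤ) (h1 : U ≤ nrm v) (h2 : nrm v ≤ 2 * U)
    (h3 : V ≤ (L (a i0) v).natAbs) (h5 : ∀ i, (L (a i0) v).natAbs ≤ (L (a i) v).natAbs)
    (e z : Fin (2 * g + 2) → ℕ) (he : ∀ i, (L (a i) v).natAbs = z i ^ 2 * e i)
    (hQ : ((∏ i, e i : ℕ) : ℝ) ≤ b ^ (2 * g + 2) * (D:ℝ) ^ (2 * g + 2)) :
    (1 / (2 * (K1 a : ℝ) * D)) ^ (g + 1) * U * V / b ^ 2 * (2 * U / b) ≤
      ((∏ i, z i : ℕ) : ℝ) := by
  classical
  set K := K1 a with hK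
  have hK2 : 2 ≤ K := by have := le_K1 a i0; omega
  have hKR : (0:ℝ) < K := by positivity
  have hDR : (0:ℝ) < D := by positivity
  have hUR : (1:ℝ) ≤ U := by exact_mod_cast hU
  have hVR : (1:ℝ) ≤ V := by exact_mod_cast hV
  have hb0 : (0:ℝ) < b := by linarith
  refine (pow_le_pow_iff_left₀ (by positivity) (Nat.cast_nonneg _) two_ne_zero).mp ?_
  have hprodL : (V:ℝ) * ((U:ℝ) / K) ^ (2 * g + 1) ≤ ((∏ i, (L (a i) v).natAbs : ℕ) : ℝ) := by
    rw [← Finset.mul_prod_erase _ _ (Finset.mem_univ i0)]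
    push_cast
    have hc : (Finset.univ.erase i0).card = 2 * g + 1 := by
      rw [Finset.card_erase_of_mem (Finset.mem_univ _), Finset.card_univ, Fintype.card_fin]; omega
    apply mul_le_mul
    · exact_mod_cast h3
    · rw [← hc, ← Finset.prod_const]
      apply Finset.prod_le_prod
      · intro i _; positivity
      · intro i hi
        have hne := Finset.ne_of_mem_erase hi
        have h6 := nrm_le a ha i0 i hne v (h5 i)
        rw [div_le_iff₀ hKR]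
        have h7 : U ≤ K * (L (a i) v).natAbs := h1.trans h6
        have h8 : (U:ℝ) ≤ K * ((L (a i) v).natAbs : ℝ) := by exact_mod_cast h7
        have h9 : ((L (a i) v).natAbs : ℝ) = |((L (a i) v : ℤ) : ℝ)| := Nat.cast_natAbs _ |>.trans (by simp)
        first
          | linarith
          | (rw [h9] at h8; linarith)
    · positivity
    · positivity
  have hprod : ((∏ i, (L (a i) v).natAbs : ℕ) : ℝ) =
      ((∏ i, z i : ℕ) : ℝ) ^ 2 * ((∏ i, e i : ℕ) : ℝ) := by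
    rw [Finset.prod_congr rfl (fun i _ => he i), Finset.prod_mul_distrib, Finset.prod_pow]
    push_cast; ring
  have hVU : (V:ℝ) ≤ 2 * K * U := by
    have h10 : V ≤ K * (2 * U) := h3.trans ((L_le a i0 v).trans (Nat.mul_le_mul_left _ h2))
    have : (V:ℝ) ≤ K * (2 * U) := by exact_mod_cast h10
    linarith
  have hmain : V * ((U:ℝ) / K) ^ (2 * g + 1) ≤
      ((∏ i, z i : ℕ) : ℝ) ^ 2 * (b ^ (2 * g + 2) * (D:ℝ) ^ (2 * g + 2)) := by
    calc _ ≤ _ := hprodL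
      _ = _ := hprod
      _ ≤ _ := mul_le_mul_of_nonneg_left hQ (by positivity)
  obtain ⟨l, rfl⟩ : ∃ l, g = l + 2 := ⟨g - 2, by omega⟩
  have hbpow : b ^ (2 * l) ≤ (2 * (U:ℝ)) ^ (2 * l) := pow_le_pow_left₀ hb0.le hbU _
  have hfin : ((1 / (2 * (K : ℝ) * D)) ^ (l + 2 + 1) * U * V / b ^ 2 * (2 * U / b)) ^ 2 *
      (b ^ (2 * (l + 2) + 2) * (D:ℝ) ^ (2 * (l + 2) + 2)) ≤
      V * ((U:ℝ) / K) ^ (2 * (l + 2) + 1) := by
    have e2 : ((1 / (2 * (K : ℝ) * D)) ^ (l + 2 + 1) * U * V / b ^ 2 * (2 * U / b)) ^ 2 *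
        (b ^ (2 * (l + 2) + 2) * (D:ℝ) ^ (2 * (l + 2) + 2)) =
        (1 / (2 * (K:ℝ))) ^ (2 * (l + 1) + 4) * (U ^ 2 * V * V * ((2 * U) ^ 2 * b ^ (2 * l))) := by
      have e3 : 1 / (2 * (K:ℝ) * D) = (1 / (2 * (K:ℝ))) * (1 / D) := by field_simp
      rw [e3]
      exact alg3 _ _ _ _ _ _ _ l (by field_simp) hb0.ne'
    rw [e2]
    calc (1 / (2 * (K:ℝ))) ^ (2 * (l + 1) + 4) * (U ^ 2 * V * V * ((2 * U) ^ 2 * b ^ (2 * l)))
        ≤ (1 / (2 * (K:ℝ))) ^ (2 * (l + 1) + 4) *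
          (U ^ 2 * V * (2 * K * U) * ((2 * U) ^ 2 * (2 * (U:ℝ)) ^ (2 * l))) := by
          gcongr
      _ = (1 / (2 * (K:ℝ))) ^ (2 * (l + 1) + 4) *
          (U ^ 2 * V * (2 * K * U) * (2 * (U:ℝ)) ^ (2 * (l + 1))) := by ring
      _ = V * ((U:ℝ) / K) ^ (2 * (l + 2) + 1) * (1 / 8) := by
          have e4 : 1 / (2 * (K:ℝ)) = (1 / K) / 2 := by field_simp
          rw [e4, alg2 (K:ℝ) (1 / K) U V (l + 1) (by field_simp), mul_one_div (U:ℝ) (K:ℝ)]
      _ ≤ V * ((U:ℝ) / K) ^ (2 * (l + 2) + 1) * 1 := by gcongr; norm_num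
      _ = _ := mul_one _
  have hpos : (0:ℝ) < b ^ (2 * (l + 2) + 2) * (D:ℝ) ^ (2 * (l + 2) + 2) := by positivity
  exact le_of_mul_le_mul_right (hfin.trans hmain) hpos

lemma class_bound2 {g : ℕ} (hg : 2 ≤ g) (a : Fin (2 * g + 2) → ℤ × ℤ)
    (ha : ∀ i j, i ≠ j → det (a i) (a j) ≠ 0) (hac : ∀ i, IsCoprime (a i).1 (a i).2)
    (D : ℕ) (hD : 1 ≤ D) (δ : ℝ) (hδ : 0 < δ) (hδ1 : δ ≤ 1 / 6) (R : ℝ) (hR : 1 ≤ R) :
    ∃ C : ℝ, 0 ≤ C ∧ ∀ b : ℝ, 1 ≤ b → ∀ (i0 : Fin (2 * g + 2)) (U V : ℕ), 1 ≤ U → 1 ≤ V →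
      b ≤ 2 * U → (U : ℝ) ^ 3 ≤ R * b ^ (5 - 3 * δ) → ∀ s : Finset (ℤ × ℤ),
      (∀ v ∈ s, InClass a i0 U V (b ^ (2 * g + 2) * (D:ℝ) ^ (2 * g + 2)) v) →
      (s.card : ℝ) ≤ C * b ^ (2 - δ) + C * min ((U:ℝ) * V) (b ^ 2 * (2 * U / b) ^ (-(δ / 2))) := by
  classical
  set K := K1 a with hK
  have hK2 : 2 ≤ K := by have := le_K1 a 0; omega
  have hKR : (2:ℝ) ≤ K := by exact_mod_cast hK2
  have hDR : (1:ℝ) ≤ D := by exact_mod_cast hD
  have h2K : (1:ℝ) ≤ 2 * K := by linarith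
  set κ : ℝ := (1 / (2 * (K : ℝ) * D)) ^ (g + 1) with hκ
  have hκ0 : 0 < κ := by rw [hκ]; positivity
  have hκ1 : κ ≤ 1 := by
    rw [hκ]
    apply pow_le_one₀ (by positivity)
    rw [div_le_one (by positivity)]
    nlinarith
  set ε : ℝ := δ / 6 with hε
  have hε0 : 0 < ε := by positivity
  have hε1 : ε ≤ 1 := by rw [hε]; linarith
  set Z : ℝ := (∑' n : ℕ, ((n:ℝ)) ^ (-(1 + ε))) with hZ
  have hZ0 : 0 ≤ Z := tsum_nonneg (fun n => by positivity)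
  set E : ℝ := 80 * (Dd a : ℝ) ^ ((2 * g + 2) * (2 * g + 2)) with hE
  have hE0 : 0 ≤ E := by positivity
  set cP : ℝ := (2 * K) ^ 2 * (8 * R) ^ 2 with hcP
  have hcP0 : 0 < cP := by positivity
  set CA : ℝ := 5 * cP ^ (1 + ε) * Z ^ (2 * g + 2) with hCA
  set CB : ℝ := E * (2 * K / κ) * Z ^ (2 * g + 2) with hCB
  have hCA0 : 0 ≤ CA := by positivity
  have hCB0 : 0 ≤ CB := by positivity
  refine ⟨CA + CB, by positivity, ?_⟩
  intro b hb i0 U V hU hV hbU hUb s hs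
  have hb0 : (0:ℝ) < b := by linarith
  have hUR : (1:ℝ) ≤ U := by exact_mod_cast hU
  have hVR : (1:ℝ) ≤ V := by exact_mod_cast hV
  set t : ℝ := 2 * U / b with ht
  have ht1 : 1 ≤ t := by rw [ht, le_div_iff₀ hb0]; linarith
  have ht0 : 0 < t := by linarith
  set W : ℝ := κ * U * V / b ^ 2 * t ^ δ with hW
  have hW0 : 0 < W := by positivity
  set P : ℝ := cP * b ^ (2 - 2 * δ) with hP
  have hP0 : 0 < P := by positivity
  have htδ : t ^ δ ≤ t := by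
    calc t ^ δ ≤ t ^ (1:ℝ) := Real.rpow_le_rpow_of_exponent_le ht1 (by linarith)
      _ = t := Real.rpow_one t
  have hVUs : s.Nonempty → (V:ℝ) ≤ 2 * K * U := by
    rintro ⟨v, hv⟩
    obtain ⟨hc, h1, h2, h3, h4, h5, e, z, he, hQ⟩ := hs v hv
    have h10 : V ≤ K * (2 * U) := h3.trans ((L_le a i0 v).trans (Nat.mul_le_mul_left _ h2))
    have : (V:ℝ) ≤ K * (2 * U) := by exact_mod_cast h10
    linarith
  rcases s.eq_empty_or_nonempty with hse | hsne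
  · rw [hse]; simp only [Finset.card_empty, Nat.cast_zero]; positivity
  have hVU := hVUs hsne
  have hWle : W ≤ 2 * K * U ^ 2 / b ^ 2 * t ^ δ := by
    rw [hW]
    apply mul_le_mul_of_nonneg_right _ (by positivity)
    apply div_le_div_of_nonneg_right _ (by positivity)
    calc κ * U * V ≤ 1 * U * (2 * K * U) := by gcongr
      _ = _ := by ring
  have hWt : W ≤ 2 * K * t ^ 3 := by
    calc W ≤ 2 * K * U ^ 2 / b ^ 2 * t ^ δ := hWle
      _ = 2 * K * (U / b) ^ 2 * t ^ δ := by rw [div_pow]; ring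
      _ ≤ 2 * K * t ^ 2 * t := by
          have : (U:ℝ) / b ≤ t := by
            rw [ht]; apply div_le_div_of_nonneg_right _ hb0.le; linarith
          gcongr
      _ = _ := by ring
  set X := 2 * K * U with hX
  set Fam := (Fintype.piFinset (fun _ : Fin (2 * g + 2) => Finset.Icc 1 X)).filter
    (fun z => W ≤ ((∏ i, z i : ℕ) : ℝ) ∧ ((∏ i, z i : ℕ) : ℝ) ≤ P) with hFam
  have hUP : 2 * K * U ≤ P := by
    refine (pow_le_pow_iff_left₀ (by positivity) (by positivity) (three_ne_zero)).mp ?_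
    calc (2 * (K:ℝ) * U) ^ 3 = (2 * K) ^ 3 * (U:ℝ) ^ 3 := by ring
      _ ≤ (2 * K) ^ 3 * (R * b ^ (5 - 3 * δ)) := by gcongr
      _ ≤ (2 * K) ^ 6 * ((8 * R) ^ 6 * b ^ (6 - 6 * δ)) := by
          have r0 : (2 * (K:ℝ)) ^ 3 ≤ (2 * K) ^ 6 := pow_le_pow_right₀ h2K (by norm_num)
          have r1 : R ≤ (8 * R) ^ 6 := by
            calc R ≤ 8 * R := by linarith
              _ ≤ (8 * R) ^ 6 := le_self_pow₀ (by linarith) (by norm_num)
          have r2 : b ^ (5 - 3 * δ) ≤ b ^ (6 - 6 * δ) :=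
            Real.rpow_le_rpow_of_exponent_le hb (by linarith)
          gcongr
      _ = P ^ 3 := by
          have r3 : b ^ (6 - 6 * δ) = (b ^ (2 - 2 * δ)) ^ 3 := by
            rw [← Real.rpow_natCast (b ^ (2 - 2 * δ)) 3, ← Real.rpow_mul hb0.le]
            congr 1; push_cast; ring
          rw [hP, hcP, r3]; ring
  have hWP : ∀ p : ℝ, 0 ≤ p → p ^ 2 ≤ W ^ 3 → p ≤ P := by
    intro p hp0 hp
    refine (pow_le_pow_iff_left₀ hp0 (by positivity) two_ne_zero).mp ?_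
    have q1 : (t ^ δ) ^ 3 ≤ 8 * R * b ^ (2 * δ) := by
      have q2 : (t ^ δ) ^ 3 = (t ^ 3) ^ δ := by
        rw [← Real.rpow_natCast (t ^ δ) 3, ← Real.rpow_natCast t 3, ← Real.rpow_mul ht0.le,
          ← Real.rpow_mul ht0.le]
        congr 1; ring
      have q3 : t ^ 3 ≤ 8 * R * b ^ 2 := by
        have q4 : (U:ℝ) ^ 3 ≤ R * b ^ 5 := by
          refine hUb.trans ?_
          have : b ^ (5 - 3 * δ) ≤ b ^ 5 := by
            rw [← Real.rpow_natCast b 5]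
            exact Real.rpow_le_rpow_of_exponent_le hb (by push_cast; linarith)
          gcongr
        calc t ^ 3 = 8 * (U:ℝ) ^ 3 / b ^ 3 := by rw [ht, div_pow]; ring
          _ ≤ 8 * (R * b ^ 5) / b ^ 3 := by gcongr
          _ = _ := by field_simp
      rw [q2]
      calc (t ^ 3) ^ δ ≤ (8 * R * b ^ 2) ^ δ := Real.rpow_le_rpow (by positivity) q3 hδ.le
        _ = (8 * R) ^ δ * b ^ (2 * δ) := by
            rw [Real.mul_rpow (by positivity) (by positivity), Real.rpow_mul hb0.le]; norm_num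
        _ ≤ (8 * R) ^ (1:ℝ) * b ^ (2 * δ) := by
            have : (8 * R) ^ δ ≤ (8 * R) ^ (1:ℝ) :=
              Real.rpow_le_rpow_of_exponent_le (by linarith) (by linarith)
            gcongr
        _ = _ := by rw [Real.rpow_one]
    calc p ^ 2 ≤ W ^ 3 := hp
      _ ≤ (2 * K * U ^ 2 / b ^ 2 * t ^ δ) ^ 3 := by gcongr
      _ = (2 * K) ^ 3 * ((U:ℝ) ^ 3) ^ 2 / b ^ 6 * (t ^ δ) ^ 3 := by field_simp
      _ ≤ (2 * K) ^ 3 * (R * b ^ (5 - 3 * δ)) ^ 2 / b ^ 6 * (8 * R * b ^ (2 * δ)) := by gcongr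
      _ = (2 * K) ^ 3 * (R ^ 2 * (8 * R)) * b ^ (4 - 4 * δ) := by
          have r3 : b ^ (4 - 4 * δ) = (b ^ (5 - 3 * δ)) ^ 2 / b ^ 6 * b ^ (2 * δ) := by
            rw [← Real.rpow_natCast (b ^ (5 - 3 * δ)) 2, ← Real.rpow_mul hb0.le,
              ← Real.rpow_natCast b 6, ← Real.rpow_sub hb0, ← Real.rpow_add hb0]
            congr 1; push_cast; ring
          rw [r3]; ring
      _ ≤ (2 * K) ^ 4 * (8 * R) ^ 4 * b ^ (4 - 4 * δ) := by
          have r0 : (2 * (K:ℝ)) ^ 3 ≤ (2 * K) ^ 4 := pow_le_pow_right₀ h2K (by norm_num)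
          have r1 : R ^ 2 * (8 * R) ≤ (8 * R) ^ 4 := by
            have r2 : R ^ 3 ≤ R ^ 4 := pow_le_pow_right₀ hR (by norm_num)
            have r4 : 0 ≤ R ^ 4 := by positivity
            calc R ^ 2 * (8 * R) = 8 * R ^ 3 := by ring
              _ ≤ 8 * R ^ 4 := by linarith
              _ ≤ 4096 * R ^ 4 := by linarith
              _ = _ := by ring
          gcongr
      _ = P ^ 2 := by
          have r3 : b ^ (4 - 4 * δ) = (b ^ (2 - 2 * δ)) ^ 2 := by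
            rw [← Real.rpow_natCast (b ^ (2 - 2 * δ)) 2, ← Real.rpow_mul hb0.le]
            congr 1; push_cast; ring
          rw [hP, hcP, r3]; ring
  have hcover : s ⊆ Fam.biUnion (fun z => s.filter (fun v => ∀ i, (z i ^ 2 : ℕ) ∣ (L (a i) v).natAbs)) := by
    intro v hv
    obtain ⟨hc, h1, h2, h3, h4, h5, e, z, he, hQ⟩ := hs v hv
    have hWz0 := W_le2 hg a ha D hD b hb i0 U V hU hV hbU v h1 h2 h3 h5 e z he hQ
    rw [← hK, ← hκ, ← ht] at hWz0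
    have hWz : W ≤ ((∏ i, z i : ℕ) : ℝ) := by
      refine le_trans ?_ hWz0
      rw [hW]; gcongr
    have hLpos : ∀ i, 1 ≤ (L (a i) v).natAbs := fun i => hV.trans (h3.trans (h5 i))
    have hz1 : ∀ i, 1 ≤ z i := by
      intro i
      rcases Nat.eq_zero_or_pos (z i) with h | h
      · have := hLpos i
        rw [he i, h] at this; simp at this
      · exact h
    have he1 : ∀ i, 1 ≤ e i := by
      intro i
      rcases Nat.eq_zero_or_pos (e i) with h | h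
      · have := hLpos i
        rw [he i, h] at this; simp at this
      · exact h
    have hzL : ∀ i, z i ^ 2 ≤ 2 * K * U := by
      intro i
      calc z i ^ 2 = z i ^ 2 * 1 := (mul_one _).symm
        _ ≤ z i ^ 2 * e i := Nat.mul_le_mul_left _ (he1 i)
        _ = (L (a i) v).natAbs := (he i).symm
        _ ≤ K * nrm v := L_le a i v
        _ ≤ K * (2 * U) := Nat.mul_le_mul_left _ h2
        _ = _ := by ring
    have hzY : ∀ i, (z i : ℝ) ^ 2 ≤ 2 * K * U := by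
      intro i
      exact_mod_cast hzL i
    obtain ⟨z', g1, g2, g3, g4⟩ := greedy z hz1 W (2 * K * U) hzY
      (one_le_mul_of_one_le_of_one_le h2K hUR) hWz
    rw [Finset.mem_biUnion]
    refine ⟨z', ?_, ?_⟩
    · rw [hFam, Finset.mem_filter, Fintype.mem_piFinset]
      refine ⟨fun i => ?_, g3, ?_⟩
      · rw [Finset.mem_Icc]
        refine ⟨g2 i, ?_⟩
        calc z' i ≤ z i := Nat.le_of_dvd (hz1 i) (g1 i)
          _ ≤ z i ^ 2 := Nat.le_self_pow two_ne_zero _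
          _ ≤ X := hzL i
      · rcases g4 with g4 | g4
        · exact g4.trans hUP
        · exact hWP _ (Nat.cast_nonneg _) g4
    · rw [Finset.mem_filter]
      refine ⟨hv, fun i => ?_⟩
      rw [he i]
      exact Dvd.dvd.mul_right (pow_dvd_pow_of_dvd (g1 i) 2) _
  set m : ℝ := min ((U:ℝ) * V) ((2 * K / κ) * (b ^ 2 * t ^ (-(δ / 2)))) with hm
  have hm0 : 0 ≤ m := by positivity
  set C0 : ℝ := 5 * P ^ (1 + ε) + E * m with hC0
  have hC00 : 0 ≤ C0 := by positivity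
  have hterm : ∀ z ∈ Fam, ((s.filter (fun v => ∀ i, (z i ^ 2 : ℕ) ∣ (L (a i) v).natAbs)).card : ℝ) ≤
      C0 * ∏ i, ((z i : ℝ)) ^ (-(1 + ε)) := by
    intro z hz
    rw [hFam, Finset.mem_filter, Fintype.mem_piFinset] at hz
    obtain ⟨z1, z2, z3⟩ := hz
    have hz1 : ∀ i, 1 ≤ z i := fun i => (Finset.mem_Icc.mp (z1 i)).1
    have hcc := class_count a ha hac i0 U V z hz1
      (s.filter (fun v => ∀ i, (z i ^ 2 : ℕ) ∣ (L (a i) v).natAbs)) (by
        intro v hv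
        rw [Finset.mem_filter] at hv
        obtain ⟨hc, h1, h2, h3, h4, h5, -⟩ := hs v hv.1
        exact ⟨hc, h2, h4, hv.2⟩)
    set p : ℝ := ((∏ i, z i : ℕ) : ℝ) with hp
    have hp1 : 1 ≤ p := by
      have h0 : 0 < ∏ i, z i := Finset.prod_pos (fun i _ => hz1 i)
      rw [hp]; exact_mod_cast h0
    have hp0 : 0 < p := by linarith
    have hprodp : ∏ i, ((z i : ℝ)) ^ (-(1 + ε)) = p ^ (-(1 + ε)) := by
      rw [hp]; push_cast
      exact Real.finset_prod_rpow _ _ (fun i _ => Nat.cast_nonneg _) _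
    rw [hprodp]
    have hpp : (U:ℝ) * V / p ^ 2 = (U * V) * p ^ (-(1 - ε)) * p ^ (-(1 + ε)) := by
      rw [mul_assoc, ← Real.rpow_add hp0]
      have : -(1 - ε) + -(1 + ε) = -((2:ℕ):ℝ) := by push_cast; ring
      rw [this, Real.rpow_neg hp0.le, Real.rpow_natCast]; rfl
    have hkey : (U * V : ℝ) * p ^ (-(1 - ε)) ≤ m := by
      rw [hm]
      apply le_min
      · have : p ^ (-(1 - ε)) ≤ 1 := Real.rpow_le_one_of_one_le_of_nonpos hp1 (by linarith)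
        calc (U * V : ℝ) * p ^ (-(1 - ε)) ≤ U * V * 1 := by gcongr
          _ = _ := mul_one _
      · have w1 : p ^ (-(1 - ε)) ≤ W ^ (-(1 - ε)) :=
          Real.rpow_le_rpow_of_nonpos hW0 z2 (by linarith)
        have w2 : W ^ (-(1 - ε)) = W⁻¹ * W ^ ε := by
          rw [← Real.rpow_neg_one, ← Real.rpow_add hW0]; congr 1; ring
        have w3 : W ^ ε ≤ 2 * K * t ^ (δ / 2) := by
          calc W ^ ε ≤ (2 * K * t ^ 3) ^ ε := Real.rpow_le_rpow hW0.le hWt hε0.le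
            _ = (2 * (K:ℝ)) ^ ε * t ^ (δ / 2) := by
                rw [Real.mul_rpow (by positivity) (by positivity), ← Real.rpow_natCast t 3,
                  ← Real.rpow_mul ht0.le]
                congr 2; rw [hε]; push_cast; ring
            _ ≤ (2 * (K:ℝ)) ^ (1:ℝ) * t ^ (δ / 2) := by
                have : (2 * (K:ℝ)) ^ ε ≤ (2 * (K:ℝ)) ^ (1:ℝ) :=
                  Real.rpow_le_rpow_of_exponent_le h2K hε1
                gcongr
            _ = _ := by rw [Real.rpow_one]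
        have w4 : (U * V : ℝ) * W⁻¹ = (1 / κ) * (b ^ 2 * t ^ (-δ)) := by
          rw [hW, Real.rpow_neg ht0.le]
          have : t ^ δ ≠ 0 := by positivity
          field_simp
        calc (U * V : ℝ) * p ^ (-(1 - ε)) ≤ U * V * W ^ (-(1 - ε)) := by gcongr
          _ = ((U * V) * W⁻¹) * W ^ ε := by rw [w2]; ring
          _ = (1 / κ) * (b ^ 2 * t ^ (-δ)) * W ^ ε := by rw [w4]
          _ ≤ (1 / κ) * (b ^ 2 * t ^ (-δ)) * (2 * K * t ^ (δ / 2)) := by gcongr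
          _ = (2 * K / κ) * (b ^ 2 * (t ^ (-δ) * t ^ (δ / 2))) := by ring
          _ = _ := by
              rw [← Real.rpow_add ht0]; congr 3; ring
    have h5 : (5:ℝ) ≤ 5 * P ^ (1 + ε) * p ^ (-(1 + ε)) := by
      have : p ^ (1 + ε) ≤ P ^ (1 + ε) := Real.rpow_le_rpow hp0.le z3 (by linarith)
      have h6 : p ^ (1 + ε) * p ^ (-(1 + ε)) = 1 := by
        rw [← Real.rpow_add hp0]; simp
      calc (5:ℝ) = 5 * (p ^ (1 + ε) * p ^ (-(1 + ε))) := by rw [h6]; ring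
        _ ≤ 5 * (P ^ (1 + ε) * p ^ (-(1 + ε))) := by gcongr
        _ = _ := by ring
    calc _ ≤ _ := hcc
      _ = 5 + E * (U * V / p ^ 2) := by rw [hE]; ring
      _ = 5 + E * ((U * V) * p ^ (-(1 - ε)) * p ^ (-(1 + ε))) := by rw [hpp]
      _ ≤ 5 * P ^ (1 + ε) * p ^ (-(1 + ε)) + E * (m * p ^ (-(1 + ε))) := by gcongr
      _ = _ := by rw [hC0]; ring
  have htot : (s.card : ℝ) ≤ C0 * Z ^ (2 * g + 2) := by
    calc (s.card : ℝ) ≤ ((Fam.biUnion (fun z => s.filter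
          (fun v => ∀ i, (z i ^ 2 : ℕ) ∣ (L (a i) v).natAbs))).card : ℝ) := by
          exact_mod_cast Finset.card_le_card hcover
      _ ≤ ∑ z ∈ Fam, ((s.filter (fun v => ∀ i, (z i ^ 2 : ℕ) ∣ (L (a i) v).natAbs)).card : ℝ) := by
          exact_mod_cast Finset.card_biUnion_le
      _ ≤ ∑ z ∈ Fam, C0 * ∏ i, ((z i : ℝ)) ^ (-(1 + ε)) := Finset.sum_le_sum hterm
      _ = C0 * ∑ z ∈ Fam, ∏ i, ((z i : ℝ)) ^ (-(1 + ε)) := by rw [Finset.mul_sum]
      _ ≤ C0 * ∑ z ∈ Fintype.piFinset (fun _ : Fin (2 * g + 2) => Finset.Icc 1 X),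
            ∏ i, ((z i : ℝ)) ^ (-(1 + ε)) := by
          apply mul_le_mul_of_nonneg_left _ hC00
          apply Finset.sum_le_sum_of_subset_of_nonneg (Finset.filter_subset _ _)
          intro z _ _
          exact Finset.prod_nonneg (fun i _ => by positivity)
      _ ≤ C0 * Z ^ (2 * g + 2) := mul_le_mul_of_nonneg_left (rankin _ X ε hε0) hC00
  have hPe : P ^ (1 + ε) ≤ cP ^ (1 + ε) * b ^ (2 - δ) := by
    rw [hP, Real.mul_rpow hcP0.le (by positivity), ← Real.rpow_mul hb0.le]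
    have : (2 - 2 * δ) * (1 + ε) ≤ 2 - δ := by rw [hε]; nlinarith
    have := Real.rpow_le_rpow_of_exponent_le hb this
    gcongr
  have hmm : m ≤ (2 * K / κ) * min ((U:ℝ) * V) (b ^ 2 * t ^ (-(δ / 2))) := by
    have h1 : (1:ℝ) ≤ 2 * K / κ := by rw [le_div_iff₀ hκ0]; linarith
    rcases min_choice ((U:ℝ) * V) (b ^ 2 * t ^ (-(δ / 2))) with h | h
    · rw [h]
      have h2 : (0:ℝ) ≤ (U:ℝ) * V := by positivity
      calc m ≤ (U:ℝ) * V := min_le_left _ _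
        _ ≤ 2 * K / κ * (U * V) := le_mul_of_one_le_left h2 h1
    · rw [h]; exact min_le_right _ _
  have hmin0 : 0 ≤ min ((U:ℝ) * V) (b ^ 2 * t ^ (-(δ / 2))) := by positivity
  have hb20 : 0 ≤ b ^ (2 - δ) := by positivity
  calc (s.card : ℝ) ≤ C0 * Z ^ (2 * g + 2) := htot
    _ = 5 * P ^ (1 + ε) * Z ^ (2 * g + 2) + E * m * Z ^ (2 * g + 2) := by rw [hC0]; ring
    _ ≤ 5 * (cP ^ (1 + ε) * b ^ (2 - δ)) * Z ^ (2 * g + 2) +
        E * ((2 * K / κ) * min ((U:ℝ) * V) (b ^ 2 * t ^ (-(δ / 2)))) * Z ^ (2 * g + 2) := by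
        gcongr
    _ = CA * b ^ (2 - δ) + CB * min ((U:ℝ) * V) (b ^ 2 * t ^ (-(δ / 2))) := by
        rw [hCA, hCB]; ring
    _ ≤ (CA + CB) * b ^ (2 - δ) + (CA + CB) * min ((U:ℝ) * V) (b ^ 2 * t ^ (-(δ / 2))) := by
        apply add_le_add
        · exact mul_le_mul_of_nonneg_right (by linarith) hb20
        · exact mul_le_mul_of_nonneg_right (by linarith) hmin0

end Pool.Agent.W2helper36.HT
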