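import Pool.Agent.W2helper36.HT.H

namespace Pool.Agent.W2helper36.HT

lemma geo1 (c b : ℝ) (hc : 0 < c) (hb : 0 < b) (S : Finset ℕ) (hS : ∀ j ∈ S, b ≤ 2 * (2:ℝ) ^ j) :
    ∑ j ∈ S, (2 * (2:ℝ) ^ j / b) ^ (-c) ≤ (1 - (2:ℝ) ^ (-c))⁻¹ := by
  have hx0 : (0:ℝ) ≤ (2:ℝ) ^ (-c) := by positivity
  have hx1 : (2:ℝ) ^ (-c) < 1 := Real.rpow_lt_one_of_one_lt_of_neg (by norm_num) (by linarith)
  rcases S.eq_empty_or_nonempty with h | hne
  · rw [h]; simp only [Finset.sum_empty]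
    exact inv_nonneg.mpr (by linarith)
  · set j0 := S.min' hne with hj0
    have h0 := hS j0 (S.min'_mem hne)
    have hterm : ∀ j ∈ S, (2 * (2:ℝ) ^ j / b) ^ (-c) ≤ ((2:ℝ) ^ (-c)) ^ (j - j0) := by
      intro j hj
      have hjj : j0 ≤ j := S.min'_le j hj
      have h1 : (2:ℝ) ^ (j - j0) ≤ 2 * (2:ℝ) ^ j / b := by
        rw [le_div_iff₀ hb]
        have h2 : (2:ℝ) ^ j = 2 ^ (j - j0) * 2 ^ j0 := by
          rw [← pow_add]; congr 1; omega
        rw [h2]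
        have h3 : (0:ℝ) ≤ 2 ^ (j - j0) := by positivity
        nlinarith
      calc (2 * (2:ℝ) ^ j / b) ^ (-c) ≤ ((2:ℝ) ^ (j - j0)) ^ (-c) :=
            Real.rpow_le_rpow_of_nonpos (by positivity) h1 (by linarith)
        _ = _ := by
            rw [← Real.rpow_natCast 2, ← Real.rpow_mul (by norm_num), mul_comm,
              Real.rpow_mul (by norm_num), Real.rpow_natCast]
    have hinj : Set.InjOn (fun j => j - j0) (S : Set ℕ) := by
      intro i hi j hj hij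
      have h1 : j0 ≤ i := S.min'_le i hi
      have h2 : j0 ≤ j := S.min'_le j hj
      simp only at hij
      omega
    calc ∑ j ∈ S, (2 * (2:ℝ) ^ j / b) ^ (-c) ≤ ∑ j ∈ S, ((2:ℝ) ^ (-c)) ^ (j - j0) :=
          Finset.sum_le_sum hterm
      _ = ∑ i ∈ S.image (fun j => j - j0), ((2:ℝ) ^ (-c)) ^ i := by
          rw [Finset.sum_image hinj]
      _ ≤ ∑' i : ℕ, ((2:ℝ) ^ (-c)) ^ i :=
          Summable.sum_le_tsum _ (fun i _ => by positivity) (summable_geometric_of_lt_one hx0 hx1)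
      _ = _ := tsum_geometric_of_lt_one hx0 hx1

lemma geo2 (a : ℝ) (ha : 0 < a) (n : ℕ) (hn : 1 ≤ n) :
    ∑ k ∈ Finset.range (Nat.log 2 n + 1), ((2:ℝ) ^ k) ^ a ≤
      ((2:ℝ) ^ a / ((2:ℝ) ^ a - 1)) * (n:ℝ) ^ a := by
  have hx1 : 1 < (2:ℝ) ^ a := Real.one_lt_rpow (by norm_num) ha
  have hk : ∀ k : ℕ, ((2:ℝ) ^ k) ^ a = ((2:ℝ) ^ a) ^ k := by
    intro k
    rw [← Real.rpow_natCast 2, ← Real.rpow_mul (by norm_num), mul_comm,
      Real.rpow_mul (by norm_num), Real.rpow_natCast]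
  rw [Finset.sum_congr rfl (fun k _ => hk k), geom_sum_eq hx1.ne']
  have h1 : ((2:ℝ) ^ a) ^ (Nat.log 2 n) ≤ (n:ℝ) ^ a := by
    rw [← hk]
    apply Real.rpow_le_rpow (by positivity) _ ha.le
    exact_mod_cast Nat.pow_log_le_self 2 (by omega)
  have h2 : (0:ℝ) < (2:ℝ) ^ a - 1 := by linarith
  calc (((2:ℝ) ^ a) ^ (Nat.log 2 n + 1) - 1) / ((2:ℝ) ^ a - 1)
      ≤ (((2:ℝ) ^ a) ^ (Nat.log 2 n) * (2:ℝ) ^ a) / ((2:ℝ) ^ a - 1) := by
        apply div_le_div_of_nonneg_right _ h2.le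
        rw [pow_succ]; linarith
    _ ≤ ((n:ℝ) ^ a * (2:ℝ) ^ a) / ((2:ℝ) ^ a - 1) := by gcongr
    _ = _ := by ring

lemma min_le_rpow (x y a : ℝ) (hx : 0 < x) (hy : 0 < y) (ha0 : 0 ≤ a) (ha1 : a ≤ 1) :
    min x y ≤ x ^ a * y ^ (1 - a) := by
  have hm : 0 < min x y := lt_min hx hy
  calc min x y = (min x y) ^ a * (min x y) ^ (1 - a) := by
        rw [← Real.rpow_add hm]; simp
    _ ≤ x ^ a * y ^ (1 - a) := by
        apply mul_le_mul
        · exact Real.rpow_le_rpow hm.le (min_le_left _ _) ha0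
        · exact Real.rpow_le_rpow hm.le (min_le_right _ _) (by linarith)
        · positivity
        · positivity

lemma inner_sum (c : ℝ) (hc : 0 < c) (hc1 : c ≤ 1) (b : ℝ) (hb : 0 < b) (K : ℕ) (hK : 1 ≤ K)
    (j : ℕ) (hj : b ≤ 2 * (2:ℝ) ^ j) :
    ∑ k ∈ Finset.range (Nat.log 2 (2 * K * 2 ^ j) + 1),
      min ((2:ℝ) ^ j * 2 ^ k) (b ^ 2 * (2 * (2:ℝ) ^ j / b) ^ (-c)) ≤
      ((2:ℝ) ^ (c / 6) / ((2:ℝ) ^ (c / 6) - 1)) * (2 * (K:ℝ)) ^ (c / 6) *
        (b ^ 2 * (2 * (2:ℝ) ^ j / b) ^ (-(c / 2))) := by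
  set a := c / 6 with ha
  have ha0 : 0 < a := by positivity
  set t := 2 * (2:ℝ) ^ j / b with ht
  have ht1 : 1 ≤ t := by rw [ht, le_div_iff₀ hb]; linarith
  have ht0 : 0 < t := by linarith
  set U : ℝ := (2:ℝ) ^ j with hU
  have hU0 : 0 < U := by positivity
  have hx1 : 1 < (2:ℝ) ^ a := Real.one_lt_rpow (by norm_num) ha0
  have hG : 0 ≤ (2:ℝ) ^ a / ((2:ℝ) ^ a - 1) := div_nonneg (by positivity) (by linarith)
  have hKR : (0:ℝ) < K := by exact_mod_cast hK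
  have hUbt : U ≤ b * t := by
    have : b * t = 2 * U := by rw [ht]; field_simp
    rw [this]; linarith
  calc ∑ k ∈ Finset.range (Nat.log 2 (2 * K * 2 ^ j) + 1), min (U * 2 ^ k) (b ^ 2 * t ^ (-c))
      ≤ ∑ k ∈ Finset.range (Nat.log 2 (2 * K * 2 ^ j) + 1),
          (U ^ a * (b ^ 2 * t ^ (-c)) ^ (1 - a)) * ((2:ℝ) ^ k) ^ a := by
        apply Finset.sum_le_sum
        intro k _
        refine (min_le_rpow _ _ a (by positivity) (by positivity) ha0.le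
          (by rw [ha]; linarith)).trans (le_of_eq ?_)
        rw [Real.mul_rpow hU0.le (by positivity)]; ring
    _ = (U ^ a * (b ^ 2 * t ^ (-c)) ^ (1 - a)) *
          ∑ k ∈ Finset.range (Nat.log 2 (2 * K * 2 ^ j) + 1), ((2:ℝ) ^ k) ^ a := by
        rw [Finset.mul_sum]
    _ ≤ (U ^ a * (b ^ 2 * t ^ (-c)) ^ (1 - a)) *
          (((2:ℝ) ^ a / ((2:ℝ) ^ a - 1)) * ((2 * K * 2 ^ j : ℕ) : ℝ) ^ a) := by
        apply mul_le_mul_of_nonneg_left _ (by positivity)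
        apply geo2 a ha0
        have h1 : 1 ≤ 2 ^ j := Nat.one_le_two_pow
        nlinarith
    _ = ((2:ℝ) ^ a / ((2:ℝ) ^ a - 1)) * (2 * (K:ℝ)) ^ a *
          ((U ^ a * U ^ a) * (b ^ 2 * t ^ (-c)) ^ (1 - a)) := by
        have h1 : ((2 * K * 2 ^ j : ℕ) : ℝ) ^ a = (2 * (K:ℝ)) ^ a * U ^ a := by
          rw [hU]; push_cast
          rw [Real.mul_rpow (by positivity) (by positivity)]
        rw [h1]; ring
    _ ≤ ((2:ℝ) ^ a / ((2:ℝ) ^ a - 1)) * (2 * (K:ℝ)) ^ a * (b ^ 2 * t ^ (-(c / 2))) := by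
        apply mul_le_mul_of_nonneg_left _ (by positivity)
        have h1 : U ^ a ≤ b ^ a * t ^ a := by
          rw [← Real.mul_rpow hb.le ht0.le]
          exact Real.rpow_le_rpow hU0.le hUbt ha0.le
        have h2 : (b ^ 2 * t ^ (-c)) ^ (1 - a) = b ^ (2 * (1 - a)) * t ^ (-c * (1 - a)) := by
          rw [Real.mul_rpow (by positivity) (by positivity), ← Real.rpow_natCast b 2,
            ← Real.rpow_mul hb.le, ← Real.rpow_mul ht0.le]
          norm_num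
        rw [h2]
        calc U ^ a * U ^ a * (b ^ (2 * (1 - a)) * t ^ (-c * (1 - a)))
            ≤ (b ^ a * t ^ a) * (b ^ a * t ^ a) * (b ^ (2 * (1 - a)) * t ^ (-c * (1 - a))) := by
              gcongr
          _ = (b ^ a * b ^ a * b ^ (2 * (1 - a))) * (t ^ a * t ^ a * t ^ (-c * (1 - a))) := by ring
          _ = b ^ 2 * t ^ (a + a + -c * (1 - a)) := by
              rw [← Real.rpow_add hb, ← Real.rpow_add hb, ← Real.rpow_add ht0,
                ← Real.rpow_add ht0, ← Real.rpow_natCast b 2]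
              congr 2; push_cast; ring
          _ ≤ b ^ 2 * t ^ (-(c / 2)) := by
              have h3 : a + a + -c * (1 - a) ≤ -(c / 2) := by rw [ha]; nlinarith
              have := Real.rpow_le_rpow_of_exponent_le ht1 h3
              gcongr

end Pool.Agent.W2helper36.HT
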