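import Pool.Agent.W2helper36.HT.I

namespace Pool.Agent.W2helper36.HT

lemma good_count2 {g : ℕ} (hg : 2 ≤ g) (a : Fin (2 * g + 2) → ℤ × ℤ)
    (ha : ∀ i j, i ≠ j → det (a i) (a j) ≠ 0) (hac : ∀ i, IsCoprime (a i).1 (a i).2)
    (D : ℕ) (hD : 1 ≤ D) (δ : ℝ) (hδ : 0 < δ) (hδ1 : δ ≤ 1 / 6) (R : ℝ) (hR : 1 ≤ R) :
    ∃ C : ℝ, 0 ≤ C ∧ ∀ b : ℝ, 1 ≤ b → ∀ s : Finset (ℤ × ℤ),
      (∀ v ∈ s, Good a (b ^ (2 * g + 2) * (D:ℝ) ^ (2 * g + 2)) v ∧
        (nrm v : ℝ) ^ 3 ≤ R * b ^ (5 - 3 * δ)) →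
      (s.card : ℝ) ≤ C * b ^ 2 := by
  classical
  obtain ⟨C1, hC1, hclass⟩ := class_bound2 hg a ha hac D hD δ hδ hδ1 R hR
  set K := K1 a with hK
  have hK2 : 2 ≤ K := by have := le_K1 a 0; omega
  have hKR : (2:ℝ) ≤ K := by exact_mod_cast hK2
  set η : ℝ := δ / 4 with hη
  have hη0 : 0 < η := by positivity
  set c : ℝ := δ / 2 with hc
  have hc0 : 0 < c := by positivity
  have hc1 : c ≤ 1 := by rw [hc]; linarith
  set CJ : ℝ := (1 + 2 / η) * (2 * K * R) ^ η with hCJ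
  have hCJ0 : 0 ≤ CJ := by rw [hCJ]; positivity
  set G2 : ℝ := ((2:ℝ) ^ (c / 6) / ((2:ℝ) ^ (c / 6) - 1)) * (2 * (K:ℝ)) ^ (c / 6) with hG2
  have hG20 : 0 ≤ G2 := by
    have hx1 : 1 < (2:ℝ) ^ (c / 6) := Real.one_lt_rpow (by norm_num) (by positivity)
    rw [hG2]
    exact mul_nonneg (div_nonneg (by positivity) (by linarith)) (by positivity)
  set G1 : ℝ := (1 - (2:ℝ) ^ (-(c / 2)))⁻¹ with hG1
  have hG10 : 0 ≤ G1 := by
    have hx1 : (2:ℝ) ^ (-(c / 2)) < 1 :=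
      Real.rpow_lt_one_of_one_lt_of_neg (by norm_num) (by linarith)
    exact inv_nonneg.mpr (by linarith)
  refine ⟨9 + (2 * g + 2) * (CJ ^ 2 * C1 + C1 * (G2 * G1)), by positivity, ?_⟩
  intro b hb s hs
  have hb0 : (0:ℝ) < b := by linarith
  set Q := b ^ (2 * g + 2) * (D:ℝ) ^ (2 * g + 2) with hQ
  set T : ℝ := 2 * K * R * b ^ 2 with hT
  have h2K : (1:ℝ) ≤ 2 * K := by linarith
  have hT1 : 1 ≤ T :=
    one_le_mul_of_one_le_of_one_le (one_le_mul_of_one_le_of_one_le h2K hR) (one_le_pow₀ hb)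
  have hTη : (1 + 2 / η) * T ^ η = CJ * b ^ (2 * η) := by
    have h2 : T ^ η = (2 * K * R) ^ η * b ^ (2 * η) := by
      rw [hT, Real.mul_rpow (by positivity) (by positivity), Real.rpow_mul hb0.le]
      norm_num
    rw [h2, hCJ]; ring
  have hcube : ∀ x : ℝ, 0 ≤ x → x ^ 3 ≤ R * b ^ (5 - 3 * δ) → x ≤ R * b ^ 2 := by
    intro x hx h
    refine (pow_le_pow_iff_left₀ hx (by positivity) (three_ne_zero)).mp (h.trans ?_)
    have r1 : R ≤ R ^ 3 := le_self_pow₀ hR (by norm_num)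
    have r2 : b ^ (5 - 3 * δ) ≤ b ^ 6 := by
      rw [← Real.rpow_natCast b 6]
      exact Real.rpow_le_rpow_of_exponent_le hb (by push_cast; linarith)
    calc R * b ^ (5 - 3 * δ) ≤ R ^ 3 * b ^ 6 := by gcongr
      _ = _ := by ring
  set n := ⌊R * b ^ 2⌋₊ with hn
  have hnT : (n:ℝ) ≤ T := by
    have h1 : (n : ℝ) ≤ R * b ^ 2 := Nat.floor_le (by positivity)
    have h2 : 0 ≤ R * b ^ 2 := by positivity
    calc (n:ℝ) ≤ 1 * (R * b ^ 2) := by linarith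
      _ ≤ (2 * K) * (R * b ^ 2) := by gcongr
      _ = T := by rw [hT]; ring
  set J := Nat.log 2 n + 1 with hJ
  have hJb : (J:ℝ) ≤ CJ * b ^ (2 * η) := by
    rw [← hTη]; exact log_bound n T η hη0 hnT hT1
  let Js : Finset ℕ := (Finset.range J).filter
    (fun j => b ≤ 2 * (2:ℝ) ^ j ∧ ((2:ℝ) ^ j) ^ 3 ≤ R * b ^ (5 - 3 * δ))
  let Ks : ℕ → Finset ℕ := fun j => Finset.range (Nat.log 2 (2 * K * 2 ^ j) + 1)
  have hJs : (Js.card : ℝ) ≤ CJ * b ^ (2 * η) := by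
    have h1 : Js.card ≤ J := (Finset.card_filter_le _ _).trans (by simp)
    exact (Nat.cast_le.mpr h1).trans hJb
  have hKs : ∀ j ∈ Js, ((Ks j).card : ℝ) ≤ CJ * b ^ (2 * η) := by
    intro j hj
    have hj' := (Finset.mem_filter.mp hj).2
    simp only [Ks, Finset.card_range]
    rw [← hTη]
    apply log_bound _ T η hη0 _ hT1
    have h1 := hcube ((2:ℝ) ^ j) (by positivity) hj'.2
    push_cast
    calc 2 * (K:ℝ) * 2 ^ j ≤ 2 * K * (R * b ^ 2) := by gcongr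
      _ = T := by rw [hT]; ring
  set small := Finset.Icc (-((⌊b⌋₊ : ℕ):ℤ)) (⌊b⌋₊ : ℕ) ×ˢ Finset.Icc (-((⌊b⌋₊:ℕ):ℤ)) (⌊b⌋₊ : ℕ)
    with hsmall
  have hsmallcard : (small.card : ℝ) ≤ 9 * b ^ 2 := by
    rw [hsmall, Finset.card_product, Int.card_Icc]
    have h1 : (((⌊b⌋₊ : ℕ) : ℤ) + 1 - -((⌊b⌋₊ : ℕ):ℤ)).toNat = 2 * ⌊b⌋₊ + 1 := by omega
    rw [h1]; push_cast
    have h2 : ((⌊b⌋₊ : ℕ) : ℝ) ≤ b := Nat.floor_le hb0.le
    have h3 : (0:ℝ) ≤ ((⌊b⌋₊ : ℕ) : ℝ) := Nat.cast_nonneg _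
    calc (2 * ((⌊b⌋₊ : ℕ) : ℝ) + 1) * (2 * ((⌊b⌋₊ : ℕ) : ℝ) + 1) ≤ (3 * b) * (3 * b) := by
          apply mul_le_mul <;> linarith
      _ = _ := by ring
  let cls : Fin (2 * g + 2) → ℕ → ℕ → Finset (ℤ × ℤ) := fun i0 j k =>
    s.filter (fun v => InClass a i0 (2 ^ j) (2 ^ k) Q v)
  have hcover : s ⊆ small ∪ Finset.univ.biUnion (fun i0 => Js.biUnion (fun j =>
      (Ks j).biUnion (fun k => cls i0 j k))) := by
    intro v hv
    obtain ⟨⟨hcp, hne, hez⟩, hN2⟩ := hs v hv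
    rw [Finset.mem_union]
    by_cases hNb : (nrm v : ℝ) ≤ b
    · left
      exact mem_box v _ (Nat.le_floor hNb)
    · right
      push Not at hNb
      obtain ⟨i0, -, hi0⟩ := Finset.exists_min_image Finset.univ
        (fun i => (L (a i) v).natAbs) ⟨0, Finset.mem_univ 0⟩
      have hNpos := nrm_pos v hcp
      have hLpos : 1 ≤ (L (a i0) v).natAbs := Int.natAbs_pos.mpr (hne i0)
      have hj1 : 2 ^ Nat.log 2 (nrm v) ≤ nrm v := Nat.pow_log_le_self 2 (by omega)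
      have hj2 : nrm v < 2 ^ (Nat.log 2 (nrm v) + 1) := Nat.lt_pow_succ_log_self (by norm_num) _
      have hk1 : 2 ^ Nat.log 2 (L (a i0) v).natAbs ≤ (L (a i0) v).natAbs :=
        Nat.pow_log_le_self 2 (by omega)
      have hk2 : (L (a i0) v).natAbs < 2 ^ (Nat.log 2 (L (a i0) v).natAbs + 1) :=
        Nat.lt_pow_succ_log_self (by norm_num) _
      have hNn : nrm v ≤ n := Nat.le_floor (hcube _ (Nat.cast_nonneg _) hN2)
      have hj3 : nrm v ≤ 2 * 2 ^ Nat.log 2 (nrm v) := by rw [pow_succ] at hj2; omega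
      have hLn : (L (a i0) v).natAbs ≤ 2 * K * 2 ^ Nat.log 2 (nrm v) := by
        calc (L (a i0) v).natAbs ≤ K * nrm v := L_le a i0 v
          _ ≤ K * (2 * 2 ^ Nat.log 2 (nrm v)) := Nat.mul_le_mul_left _ hj3
          _ = _ := by ring
      have hj1R : ((2:ℝ) ^ Nat.log 2 (nrm v)) ≤ (nrm v : ℝ) := by exact_mod_cast hj1
      have hj3R : (nrm v : ℝ) ≤ 2 * (2:ℝ) ^ Nat.log 2 (nrm v) := by exact_mod_cast hj3
      simp only [Finset.mem_biUnion, Finset.mem_univ, true_and]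
      refine ⟨i0, Nat.log 2 (nrm v), ?_, Nat.log 2 (L (a i0) v).natAbs, ?_, ?_⟩
      · simp only [Js, Finset.mem_filter, Finset.mem_range]
        refine ⟨Nat.lt_succ_of_le (Nat.log_mono_right hNn), by linarith, ?_⟩
        exact (pow_le_pow_left₀ (by positivity) hj1R 3).trans hN2
      · simp only [Ks, Finset.mem_range]
        exact Nat.lt_succ_of_le (Nat.log_mono_right hLn)
      · simp only [cls, Finset.mem_filter]
        refine ⟨hv, hcp, hj1, hj3, hk1, ?_, fun i => hi0 i (Finset.mem_univ i), hez⟩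
        rw [pow_succ] at hk2; omega
  have hcls : ∀ i0, ∀ j ∈ Js, ∀ k ∈ Ks j, ((cls i0 j k).card : ℝ) ≤ C1 * b ^ (2 - δ) +
      C1 * min ((2:ℝ) ^ j * 2 ^ k) (b ^ 2 * (2 * (2:ℝ) ^ j / b) ^ (-c)) := by
    intro i0 j hj k _
    have hj' := (Finset.mem_filter.mp hj).2
    have h := hclass b hb i0 (2 ^ j) (2 ^ k) Nat.one_le_two_pow Nat.one_le_two_pow
      (by push_cast; exact hj'.1) (by push_cast; exact hj'.2) (cls i0 j k)
      (fun v hv => (Finset.mem_filter.mp hv).2)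
    push_cast at h
    exact h
  have hj_sum : ∀ i0, ∀ j ∈ Js, ∑ k ∈ Ks j, ((cls i0 j k).card : ℝ) ≤
      CJ * b ^ (2 * η) * (C1 * b ^ (2 - δ)) +
        C1 * (G2 * (b ^ 2 * (2 * (2:ℝ) ^ j / b) ^ (-(c / 2)))) := by
    intro i0 j hj
    have hj' := (Finset.mem_filter.mp hj).2
    calc ∑ k ∈ Ks j, ((cls i0 j k).card : ℝ)
        ≤ ∑ k ∈ Ks j, (C1 * b ^ (2 - δ) +
          C1 * min ((2:ℝ) ^ j * 2 ^ k) (b ^ 2 * (2 * (2:ℝ) ^ j / b) ^ (-c))) :=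
          Finset.sum_le_sum (hcls i0 j hj)
      _ = (Ks j).card * (C1 * b ^ (2 - δ)) + C1 * ∑ k ∈ Ks j,
            min ((2:ℝ) ^ j * 2 ^ k) (b ^ 2 * (2 * (2:ℝ) ^ j / b) ^ (-c)) := by
          rw [Finset.sum_add_distrib, Finset.sum_const, nsmul_eq_mul, Finset.mul_sum]
      _ ≤ _ := by
          apply add_le_add
          · exact mul_le_mul_of_nonneg_right (hKs j hj) (by positivity)
          · exact mul_le_mul_of_nonneg_left
              (inner_sum c hc0 hc1 b hb0 K (by omega) j hj'.1) hC1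
  have hi_sum : ∀ i0, ∑ j ∈ Js, ∑ k ∈ Ks j, ((cls i0 j k).card : ℝ) ≤
      (CJ ^ 2 * C1 + C1 * (G2 * G1)) * b ^ 2 := by
    intro i0
    calc ∑ j ∈ Js, ∑ k ∈ Ks j, ((cls i0 j k).card : ℝ)
        ≤ ∑ j ∈ Js, (CJ * b ^ (2 * η) * (C1 * b ^ (2 - δ)) +
          C1 * (G2 * (b ^ 2 * (2 * (2:ℝ) ^ j / b) ^ (-(c / 2))))) :=
          Finset.sum_le_sum (hj_sum i0)
      _ = Js.card * (CJ * b ^ (2 * η) * (C1 * b ^ (2 - δ))) +
          C1 * (G2 * (b ^ 2 * ∑ j ∈ Js, (2 * (2:ℝ) ^ j / b) ^ (-(c / 2)))) := by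
          rw [Finset.sum_add_distrib, Finset.sum_const, nsmul_eq_mul, Finset.mul_sum,
            Finset.mul_sum, Finset.mul_sum]
      _ ≤ (CJ * b ^ (2 * η)) * (CJ * b ^ (2 * η) * (C1 * b ^ (2 - δ))) +
          C1 * (G2 * (b ^ 2 * G1)) := by
          apply add_le_add
          · exact mul_le_mul_of_nonneg_right hJs (by positivity)
          · have := geo1 (c / 2) b (by positivity) hb0 Js
              (fun j hj => (Finset.mem_filter.mp hj).2.1)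
            gcongr
      _ = CJ ^ 2 * C1 * (b ^ (2 * η) * b ^ (2 * η) * b ^ (2 - δ)) +
          C1 * (G2 * G1) * b ^ 2 := by ring
      _ = _ := by
          have h1 : b ^ (2 * η) * b ^ (2 * η) * b ^ (2 - δ) = b ^ 2 := by
            rw [← Real.rpow_add hb0, ← Real.rpow_add hb0, ← Real.rpow_natCast b 2]
            congr 1; rw [hη]; push_cast; ring
          rw [h1]; ring
  calc (s.card : ℝ) ≤ ((small ∪ Finset.univ.biUnion (fun i0 => Js.biUnion (fun j =>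
      (Ks j).biUnion (fun k => cls i0 j k)))).card : ℝ) := by
        exact_mod_cast Finset.card_le_card hcover
    _ ≤ (small.card : ℝ) + ((Finset.univ.biUnion (fun i0 => Js.biUnion (fun j =>
      (Ks j).biUnion (fun k => cls i0 j k)))).card : ℝ) := by
        exact_mod_cast Finset.card_union_le _ _
    _ ≤ 9 * b ^ 2 + ∑ i0 : Fin (2 * g + 2), ∑ j ∈ Js, ∑ k ∈ Ks j, ((cls i0 j k).card : ℝ) := by
        apply add_le_add hsmallcard
        have h1 : (Finset.univ.biUnion (fun i0 => Js.biUnion (fun j =>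
            (Ks j).biUnion (fun k => cls i0 j k)))).card ≤
            ∑ i0 : Fin (2 * g + 2), ∑ j ∈ Js, ∑ k ∈ Ks j, (cls i0 j k).card := by
          refine Finset.card_biUnion_le.trans (Finset.sum_le_sum fun i0 _ => ?_)
          refine Finset.card_biUnion_le.trans (Finset.sum_le_sum fun j _ => ?_)
          exact Finset.card_biUnion_le
        exact_mod_cast h1
    _ ≤ 9 * b ^ 2 + ∑ i0 : Fin (2 * g + 2), (CJ ^ 2 * C1 + C1 * (G2 * G1)) * b ^ 2 :=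
        add_le_add le_rfl (Finset.sum_le_sum (fun i0 _ => hi_sum i0))
    _ = _ := by
        rw [Finset.sum_const, Finset.card_univ, Fintype.card_fin, nsmul_eq_mul]
        push_cast; ring

lemma main_count2 {g : ℕ} (hg : 2 ≤ g) (a : Fin (2 * g + 2) → ℤ × ℤ)
    (ha : ∀ i j, i ≠ j → det (a i) (a j) ≠ 0) (hac : ∀ i, IsCoprime (a i).1 (a i).2)
    (c : ℤ) (hc : c ≠ 0) (A : ℝ) (hA : A < 5 / (6 * (g + 1))) :
    ∃ C : ℝ, 0 ≤ C ∧ ∀ B : ℝ, 1 ≤ B → ∀ S : Set ℤ,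
      (∀ d ∈ S, Squarefree d ∧ |(d:ℝ)| ≤ B ∧ ∃ v : ℤ × ℤ, IsCoprime v.1 v.2 ∧
        (nrm v : ℝ) ≤ B ^ A ∧ ∃ q : ℚ, q ≠ 0 ∧
          (c:ℚ) * ∏ i, (L (a i) v : ℚ) = d * q ^ 2) →
      (S.ncard : ℝ) ≤ C * B ^ ((1:ℝ) / (g + 1)) := by
  classical
  set D := c.natAbs * Dd a with hD
  have hD1 : 1 ≤ D := Nat.mul_pos (Int.natAbs_pos.mpr hc) (Dd_pos a ha)
  have hg0 : (0:ℝ) < (g:ℝ) + 1 := by positivity
  -- exponents: 3 A (2g+2) <= 5 - 3 δ
  have hA' : A * (6 * (g + 1)) < 5 := by rwa [lt_div_iff₀ (by positivity)] at hA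
  set δ : ℝ := min (1 / 6) ((5 - A * (6 * (g + 1))) / 3) with hδd
  have hδ0 : 0 < δ := lt_min (by norm_num) (by linarith)
  have hδ1 : δ ≤ 1 / 6 := min_le_left _ _
  have hδ2 : A * (6 * (g + 1)) ≤ 5 - 3 * δ := by
    have := min_le_right (1 / 6 : ℝ) ((5 - A * (6 * (g + 1))) / 3)
    rw [← hδd] at this; linarith
  obtain ⟨C, hC0, hC⟩ := good_count2 hg a ha hac D hD1 δ hδ0 hδ1 1 le_rfl
  refine ⟨C, hC0, ?_⟩
  intro B hB S hS
  have hB0 : (0:ℝ) < B := by linarith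
  set b : ℝ := B ^ ((1:ℝ) / (2 * g + 2)) with hb
  have hb1 : 1 ≤ b := Real.one_le_rpow hB (by positivity)
  have hb0 : (0:ℝ) < b := by linarith
  have hbr : b ^ (2 * g + 2) = B := by
    rw [hb, ← Real.rpow_natCast, ← Real.rpow_mul hB0.le]
    have : (1:ℝ) / (2 * g + 2) * ((2 * g + 2 : ℕ) : ℝ) = 1 := by push_cast; field_simp
    rw [this, Real.rpow_one]
  have hb2 : b ^ 2 = B ^ ((1:ℝ) / (g + 1)) := by
    rw [hb, ← Real.rpow_natCast, ← Real.rpow_mul hB0.le]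
    congr 1; push_cast; field_simp
  set T : ℝ := B ^ A with hT
  have hT3 : T ^ 3 ≤ 1 * b ^ (5 - 3 * δ) := by
    rw [hT, hb, one_mul, ← Real.rpow_natCast, ← Real.rpow_mul hB0.le, ← Real.rpow_mul hB0.le]
    apply Real.rpow_le_rpow_of_exponent_le hB
    have h1 : (1:ℝ) / (2 * g + 2) * (5 - 3 * δ) = (5 - 3 * δ) / (2 * (g + 1)) := by
      field_simp
    rw [h1, le_div_iff₀ (by positivity)]
    push_cast; linarith
  have hT0 : 0 ≤ T := by positivity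
  let V : Finset (ℤ × ℤ) := (Finset.Icc (-((⌊T⌋₊ : ℕ):ℤ)) (⌊T⌋₊ : ℕ) ×ˢ
    Finset.Icc (-((⌊T⌋₊ : ℕ):ℤ)) (⌊T⌋₊ : ℕ)).filter
      (fun v => Good a (b ^ (2 * g + 2) * (D:ℝ) ^ (2 * g + 2)) v ∧ (nrm v : ℝ) ≤ T)
  have hV : (V.card : ℝ) ≤ C * b ^ 2 := by
    apply hC b hb1
    intro v hv
    have hv' := (Finset.mem_filter.mp hv).2
    exact ⟨hv'.1, (pow_le_pow_left₀ (Nat.cast_nonneg _) hv'.2 3).trans hT3⟩
  have hex : ∀ d : ℤ, ∃ v : ℤ × ℤ, d ∈ S → (v ∈ V ∧ ∃ q : ℚ, q ≠ 0 ∧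
      (c:ℚ) * ∏ i, (L (a i) v : ℚ) = d * q ^ 2) := by
    intro d
    by_cases hd : d ∈ S
    · obtain ⟨hsq, hdB, v, hv, hvn, q, hq0, hq⟩ := hS d hd
      refine ⟨v, fun _ => ⟨?_, q, hq0, hq⟩⟩
      have hd0 : d ≠ 0 := hsq.ne_zero
      have hne : ∀ i, L (a i) v ≠ 0 := by
        intro i hi
        have h1 : ∏ i, (L (a i) v : ℚ) = 0 :=
          Finset.prod_eq_zero (Finset.mem_univ i) (by rw [hi]; simp)
        rw [h1, mul_zero] at hq
        have hdQ : (d:ℚ) ≠ 0 := by exact_mod_cast hd0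
        exact (mul_ne_zero hdQ (pow_ne_zero 2 hq0)) hq.symm
      have hez : ∀ i, ∃ p : ℕ × ℕ, (L (a i) v).natAbs = p.2 ^ 2 * p.1 ∧ Squarefree p.1 := by
        intro i
        obtain ⟨x, y, h1, h2⟩ := Nat.sq_mul_squarefree (L (a i) v).natAbs
        exact ⟨(x, y), h1.symm, h2⟩
      choose p hp using hez
      have hprod := prod_e_le a ha c hc v hv (fun i => (p i).1) (fun i => (p i).2)
        (fun i => (hp i).1) (fun i => (hp i).2) hne d hd0 q hq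
      simp only [V, Finset.mem_filter]
      refine ⟨mem_box v _ (Nat.le_floor hvn), ⟨hv, hne, fun i => (p i).1, fun i => (p i).2,
        fun i => (hp i).1, ?_⟩, hvn⟩
      calc ((∏ i, (p i).1 : ℕ) : ℝ) ≤ ((d.natAbs * (c.natAbs * Dd a) ^ (2 * g + 2) : ℕ) : ℝ) := by
            exact_mod_cast hprod
        _ = |(d:ℝ)| * (D:ℝ) ^ (2 * g + 2) := by
            rw [← hD]; push_cast
            congr 1
            first
              | rfl
              | rw [Nat.cast_natAbs, Int.cast_abs]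
        _ ≤ b ^ (2 * g + 2) * (D:ℝ) ^ (2 * g + 2) := by rw [hbr]; gcongr
    · exact ⟨(0, 0), fun h => absurd h hd⟩
  choose f hf using hex
  have h1 : S.ncard ≤ (V : Set (ℤ × ℤ)).ncard := by
    apply Set.ncard_le_ncard_of_injOn f
    · intro d hd; exact Finset.mem_coe.mpr (hf d hd).1
    · intro d hd d' hd' hdd
      obtain ⟨-, q, hq0, hq⟩ := hf d hd
      obtain ⟨-, q', hq0', hq'⟩ := hf d' hd'
      rw [hdd] at hq
      exact eq_of_sq_ratio d d' (hS d hd).1 (hS d' hd').1 q q' hq0 (by rw [← hq, ← hq'])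
  rw [Set.ncard_coe_finset] at h1
  rw [← hb2]
  exact (Nat.cast_le.mpr h1).trans hV

end Pool.Agent.W2helper36.HT
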